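import Pool.Agent.Helper83.T5b.LeafDrop
import Pool.Agent.Helper37.T5b.Event

/-!
# T5b (MP_12a1af), the leaf: few hits of a near pair of states with given joint vectors
-/

set_option autoImplicit false

namespace Pool.Agent.Helper83.T5b

open Finset Pool.Agent.Helper27.T4 Pool.Agent.Helper37.T5b
open Pool.Agent.Helper5.ET (mask bb era)
open Pool.Agent.Helper30.T5b (pz QF QT RT BP ez NL exists_late)
open Pool.Agent.Helper22.HW Pool.Agent.Helper57.T5 Pool.Agent.Helper39.T5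
open Pool.Agent.Helper84.T5b Pool.Agent.Helper42.T5.Pr
open Pool.Agent.Helper48.T5b (SplitP DropP SplitP_of DropP_of)
open Pool.Agent.Helper57.T5b (BKb BKb_of vprs v_leafB pairOK_of_last)

variable {m k : ℕ}

/-- **near pairs**: same levels, a SPLIT, or a DROP -/
theorem near_cases (hm : 0 < m) (hk0 : 0 < k) : ∃ l0 : ℕ, ∀ l l' : ℕ, l0 ≤ l' → l' ≤ l →
    Near m k l' l → (sL m k l' = sL m k l ∧ bL m k l' = bL m k l) ∨
      (∃ s, SplitP m k s l' l) ∨ ∃ s, DropP m k s l' l := by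
  obtain ⟨l0, h0⟩ := exists_late (k := k) hm 0 0
  refine ⟨l0, fun l l' hl' hll hn => ?_⟩
  obtain ⟨_, h2', _⟩ := h0 l' hl'
  obtain ⟨_, h2, h3, _⟩ := h0 l (hl'.trans hll)
  have hy : mL m k l' ≤ mL m k l := Pool.Agent.Helper48.T5b.mL_mono m k hll
  have hZ : ZZ m k (era (mL m k l')) ≤ ZZ m k (era (mL m k l)) := ZZ_mono hm k (era_mono hy)
  have hd : mL m k l < mL m k l' + ZZ m k (era (mL m k l)) := by
    unfold Near at hn
    omega
  rcases event_cases hm hy h3 h2' hd with h | h | h | h | h | h | h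
  · left
    refine ⟨h.sv_eq, ?_⟩
    unfold bL
    rw [h.dv_eq]
  · left
    refine ⟨h.sv'.trans h.sv.symm, ?_⟩
    unfold bL
    rw [h.dv', h.dv]
  · left
    refine ⟨h.sv'.trans h.sv.symm, ?_⟩
    unfold bL
    rw [h.dv', h.dv]
  · left
    refine ⟨h.sv'.trans h.sv.symm, ?_⟩
    unfold bL
    rw [h.dv', h.dv]
  · left
    refine ⟨h.sv'.trans h.sv.symm, ?_⟩
    unfold bL
    rw [h.dv', h.dv]
  · right; left
    exact ⟨_, SplitP_of hm hll h⟩
  · right; right
    exact ⟨_, DropP_of hm hk0 hll hd h⟩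

theorem TH_le_vprs {l l' q : ℕ} (w : Key → ℕ) (hU : Un m k l = Un m k l' * q) (N : ℕ) :
    (TH (Vw m k l w) (Vw m k l' w) q N).card ≤ (vprs m k l l' w (Un m k l' * N)).card := by
  refine card_le_card (fun x hx => ?_)
  rw [TH, mem_filter] at hx
  unfold Pool.Agent.Helper57.T5b.vprs
  rw [mem_filter]
  refine ⟨hx.1, ?_⟩
  rw [hU, ← hx.2]
  ring

/-- constant of the leaf -/
noncomputable def CL (k : ℕ) : ℕ := CB k ^ (k + 1) * (CB k * 310)

theorem le_CL (k S : ℕ) : CB k ^ (k + 1) * (310 * S) ≤ CL k * S := by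
  have h := CB_pos k
  unfold CL
  calc CB k ^ (k + 1) * (310 * S) = CB k ^ (k + 1) * (1 * 310) * S := by ring
    _ ≤ CB k ^ (k + 1) * (CB k * 310) * S :=
        Nat.mul_le_mul_right _ (Nat.mul_le_mul_left _ (Nat.mul_le_mul_right _ h))

theorem le_CL' (k S : ℕ) : CB k ^ (k + 1) * (CB k * (4 * S)) ≤ CL k * S := by
  unfold CL
  calc CB k ^ (k + 1) * (CB k * (4 * S)) = CB k ^ (k + 1) * (CB k * 4) * S := by ring
    _ ≤ CB k ^ (k + 1) * (CB k * 310) * S :=
        Nat.mul_le_mul_right _ (Nat.mul_le_mul_left _ (Nat.mul_le_mul_left _ (by norm_num)))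

/-- **the leaf**, in terms of the last window -/
theorem leaf_prob (hm : 0 < m) (hk0 : 0 < k) : ∃ l0 : ℕ, ∀ l l' : ℕ, l0 ≤ l' → l' ≤ l →
    Near m k l' l → ∀ K : Finset Key, keysOf m k l ⊆ K → keysOf m k l' ⊆ K →
    PrLe (Mk m k) K (fun w => ∃ (n : ℕ) (x x' : JF → ℕ),
        CL k * SS m (bL m k l) < (HL m k l l' w n x x').card)
      (2 * Real.exp (-(SS m (bL m k l) : ℝ))) := by
  classical
  obtain ⟨l1, h1⟩ := near_cases hm hk0
  obtain ⟨l2, h2⟩ := v_leafB hm k
  obtain ⟨l3, h3⟩ := hits_prob hm k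
  obtain ⟨l4, h4⟩ := Pool.Agent.Helper27.T5b.exists_dbl hm k
  obtain ⟨l5, h5⟩ := Pool.Agent.Helper27.T5b.exists_bL hm k 0
  refine ⟨l1 + l2 + l3 + l4 + l5, fun l l' hl' hll hn K hK hK' => ?_⟩
  have hbb' := (h5 l' (by omega)).1
  have hbb := (h5 l (by omega)).1
  have hB := BKb_of hm hbb hK
  have hB' := BKb_of hm hbb' hK'
  rcases h1 l l' (by omega) hll hn with ⟨hs, hb⟩ | ⟨s, hP⟩ | ⟨s, hP⟩
  · have hU := Un_eq hm hll hb hbb'
    refine PrLe_mono (fun r _ hw => ?_) le_rfl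
      (h2 l l' (by omega) hll hb (Dvd.intro _ hU.symm) K hB hB')
    obtain ⟨n, x, x', hbig⟩ := hw
    by_contra hcon
    push Not at hcon
    have := leaf_same hm hll hbb' hs hb (ext K r) n x x' (R := 310 * SS m (bL m k l))
      (fun N => (TH_le_vprs _ hU N).trans (hcon _))
    have h6 := le_CL k (SS m (bL m k l))
    omega
  · have hb : bL m k l' = bL m k l := hP.b'.trans hP.b1.symm
    have hU := Un_eq hm hll hb hbb'
    refine PrLe_mono (fun r _ hw => ?_) le_rfl
      (h2 l l' (by omega) hll hb (Dvd.intro _ hU.symm) K hB hB')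
    obtain ⟨n, x, x', hbig⟩ := hw
    by_contra hcon
    push Not at hcon
    have := leaf_split hm hP (ext K r) n x x' (R := 310 * SS m (bL m k l))
      (fun N => (TH_le_vprs _ hU N).trans (hcon _))
    have h6 := le_CL k (SS m (bL m k l))
    omega
  · have hne : l' ≠ l := by
      intro h
      have h6 := hP.bL_succ
      rw [h] at h6
      omega
    refine PrLe_mono (fun r _ hw => ?_) le_rfl
      (h3 l (by omega) K hB (DropP.UD m k l') (fun w w' h => UD_congr hne h)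
        (fun w => UD_card_sq hP w) (fun w u hu => UD_lt hm hP hbb' (h4 l' (by omega)).2 w hu)
        (qN m k l' l) (qN_pos m k hll))
    obtain ⟨n, x, x', hbig⟩ := hw
    by_contra hcon
    push Not at hcon
    have := leaf_drop hm hP (ext K r) n x x' (R := 4 * SS m (bL m k l)) hcon
    have h6 := le_CL' k (SS m (bL m k l))
    omega

/-- **line 4: the leaf** -/
theorem blk_leaf : Blk Near LeafC := by
  refine ⟨1, 2, fun m hm => ?_⟩
  have hm0 : 0 < m := by omega
  obtain ⟨l0, h0⟩ := leaf_prob (m := m) (k := m ^ 2) hm0 (by positivity)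
  refine pairOK_of_last hm (C := ((CL (m ^ 2) : ℕ) : ℝ)) (m' := 2) (Nat.cast_nonneg _)
    (by norm_num) (l0 := l0) (fun l l' hl' hll hn K hK hK' => ?_)
  refine PrLe_mono (fun r _ hw => ?_) le_rfl (h0 l l' hl' hll hn K hK hK')
  obtain ⟨c, ⟨n, x, x', hc⟩, hlt⟩ := hw
  refine ⟨n, x, x', ?_⟩
  have e : c = (HL m (m ^ 2) l l' (ext K r) n x x').card := hc
  rw [← e]
  exact_mod_cast hlt

end Pool.Agent.Helper83.T5b
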