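import Pool.Agent.Helper83.T5b.Leaf
import Pool.Agent.Helper57.T5b.ZwIter
import Pool.Agent.Helper22.NEARb.Stmts

/-!
# T5b (MP_12a1af), block NEARb: pairs of elements of the inner windows across a DROP (Nb8D)
-/

set_option autoImplicit false

namespace Pool.Agent.Helper83.T5b

open Finset Pool.Agent.Helper27.T4 Pool.Agent.Helper37.T5b
open Pool.Agent.Helper5.ET (mask bb era)
open Pool.Agent.Helper30.T5b (pz QF QT RT BP ez NL)
open Pool.Agent.Helper22.HW Pool.Agent.Helper57.T5 Pool.Agent.Helper39.T5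
open Pool.Agent.Helper84.T5b Pool.Agent.Helper42.T5.Pr
open Pool.Agent.Helper48.T5b (SplitP DropP)
open Pool.Agent.Helper57.T5b (BKb BKb_of zw_iter)
open Pool.Agent.Helper44.T5b (Zw mem_Zw)
open Pool.Agent.Helper22.NEARb (ZBad ZbadS)

variable {m k : ℕ}

/-- the unit of the upper state across a DROP -/
theorem Un_drop (hm : 0 < m) {s l l' : ℕ} (h : DropP m k s l' l) (hbb : bb 0 ≤ mL m k l') :
    Un m k l = Jn m k (s + 1) l' * LL (QQ m k (s + 1)) k * qN m k l' l := by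
  have h1 := Pool.Agent.Helper48.T5b.Un_mul_RT (k := k) hm hbb
  have h2 := Pool.Agent.Helper48.T5b.Un_mul_RT (k := k) hm
    (hbb.trans (Pool.Agent.Helper48.T5b.mL_mono m k h.le))
  have h3 := NL_eq_qN m k h.le
  have h4 : RT m k (bL m k l) = RT m k (bL m k l') * QQ m k (s + 1) k := by
    rw [h.QQ_inner, h.bL_succ, Pool.Agent.Helper30.T5b.RT_succ]
  refine Nat.eq_of_mul_eq_mul_right (Pool.Agent.Helper30.T5b.RT_pos m k (bL m k l)) ?_
  rw [h2, h3, ← h1, h.Un_lower, h4]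
  ring

/-- **the innermost windows across a DROP** -/
theorem zw_drop_le (hm : 0 < m) {s l l' : ℕ} (h : DropP m k s l' l) (hbb : bb 0 ≤ mL m k l')
    (w : Key → ℕ) {R : ℕ}
    (hR : ∀ N, (TH (Vw m k l w) (DropP.UD m k l' w) (qN m k l' l) N).card ≤ R) (n : ℕ) :
    ((Zw m k l k w ×ˢ Zw m k l' k w).filter (fun q => q.1 + q.2 = n)).card ≤ R := by
  classical
  set U0 := Jn m k (s + 1) l' * LL (QQ m k (s + 1)) k with hU0
  have hU0pos : 0 < U0 :=
    Nat.mul_pos (Pool.Agent.Helper48.T5b.Jn_pos _ _ _ _)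
      (Pool.Agent.Helper48.T5b.LL_QQ_pos _ _ _ _)
  have hU := Un_drop hm h hbb
  rw [← hU0] at hU
  have hq := qN_pos m k h.le
  -- the elements
  have e1 : ∀ u ∈ Zw m k l k w, ∃ v ∈ Vw m k l w, u = U0 * (qN m k l' l * v) := by
    intro u hu
    obtain ⟨y, _, v, hv, rfl⟩ := mem_Zw.1 hu
    refine ⟨v, hv, ?_⟩
    rw [h.rL1, Ico_self, sum_empty, zero_add, hU, mul_assoc]
  have e2 : ∀ u ∈ Zw m k l' k w, ∃ x ∈ DropP.UD m k l' w, u = U0 * x := by
    intro u hu
    obtain ⟨y, hy, v, hv, rfl⟩ := mem_Zw.1 hu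
    rw [h.rL', Nat.Ico_succ_singleton, sum_singleton]
    have h3 : cs m k l' k w 0 (y k) + Un m k l' * v ∈
        (Ys m k l' k ×ˢ (Vw m k l' w).image (fun v => Un m k l' * v)).image
          (fun q => cs m k l' k w 0 q.1 + q.2) := by
      rw [mem_image]
      refine ⟨(y k, Un m k l' * v), ?_, rfl⟩
      rw [mem_product, mem_image]
      exact ⟨hy k le_rfl (by rw [h.rL']; omega), v, hv, rfl⟩
    rw [h.UD_image hm w, mem_image] at h3
    obtain ⟨x, hx, hx2⟩ := h3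
    exact ⟨x, hx, hx2.symm⟩
  choose! v hv hv2 using e1
  choose! x hx hx2 using e2
  refine le_trans (card_le_card_of_injOn (fun q => (v q.1, x q.2)) ?_ ?_) (hR (n / U0))
  · intro q hq
    rw [mem_coe, mem_filter, mem_product] at hq
    obtain ⟨⟨a1, a2⟩, a3⟩ := hq
    rw [mem_coe, TH, mem_filter, mem_product]
    refine ⟨⟨hv _ a1, hx _ a2⟩, ?_⟩
    have e : U0 * (qN m k l' l * v q.1 + x q.2) = n := by
      rw [mul_add, ← hv2 _ a1, ← hx2 _ a2]
      exact a3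
    rw [← e, Nat.mul_div_cancel_left _ hU0pos]
  · intro q hq p hp hqp
    rw [mem_coe, mem_filter, mem_product] at hq hp
    obtain ⟨k1, k2⟩ := Prod.ext_iff.1 hqp
    simp only at k1 k2
    refine Prod.ext ?_ ?_
    · rw [hv2 _ hq.1.1, hv2 _ hp.1.1, k1]
    · rw [hx2 _ hq.1.2, hx2 _ hp.1.2, k2]

/-- near, the same number of split levels and a DROP -/
theorem dropP_near (hm : 0 < m) (hk0 : 0 < k) : ∃ l0 : ℕ, ∀ l l' : ℕ, l0 ≤ l' → l' ≤ l →
    Near m k l' l → Same m k l' l → Drop m k l' l → ∃ s, DropP m k s l' l := by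
  obtain ⟨l0, h0⟩ := near_cases hm hk0
  refine ⟨l0, fun l l' hl' hll hn hs hd => ?_⟩
  unfold Drop at hd
  unfold Same at hs
  rcases h0 l l' hl' hll hn with ⟨_, hb⟩ | ⟨s, hP⟩ | hP
  · omega
  · have h1 := hP.s'
    have h2 := hP.s1
    omega
  · exact hP

/-- **Nb8D** -/
theorem zbadD {m k : ℕ} (hm : 2 ≤ m) (hk0 : 0 < k) : ZbadS Drop m k := by
  have hm0 : 0 < m := by omega
  obtain ⟨l1, h1⟩ := dropP_near hm0 hk0
  obtain ⟨l3, h3⟩ := hits_prob hm0 k
  obtain ⟨l4, h4⟩ := Pool.Agent.Helper27.T5b.exists_dbl hm0 k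
  obtain ⟨l5, h5⟩ := Pool.Agent.Helper27.T5b.exists_bL hm0 k 0
  have hCB : 1 ≤ CB k ^ k := Nat.one_le_pow _ _ (CB_pos k)
  refine ⟨CB k ^ k * 4, l1 + l3 + l4 + l5, fun l' l i hl' hll hn hs hd _ hi K hK hK' => ?_⟩
  obtain ⟨s, hP⟩ := h1 l l' (by omega) hll hn hs hd
  have hbb' := (h5 l' (by omega)).1
  have hbb := (h5 l (by omega)).1
  have hB := BKb_of hm0 hbb hK
  have hne : l' ≠ l := by
    intro h
    have h6 := hP.bL_succ
    rw [h] at h6
    omega
  have hmain := h3 l (by omega) K hB (DropP.UD m k l') (fun w w' h => UD_congr hne h)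
    (fun w => UD_card_sq hP w) (fun w u hu => UD_lt hm0 hP hbb' (h4 l' (by omega)).2 w hu)
    (qN m k l' l) (qN_pos m k hll)
  have key : PrLe (Mk m k) K
      (ZBad m k l' l i ((CB k ^ k * 4 * SS m (bL m k l) : ℕ) : ℝ))
      (((CB k ^ k * 4 : ℕ) : ℝ) * Real.exp (-(SS m (bL m k l') : ℝ))) := by
    refine PrLe_mono (fun r _ hw => ?_) ?_ hmain
    · obtain ⟨n, hbig⟩ := hw
      rw [Nat.cast_lt] at hbig
      by_contra hcon
      push Not at hcon
      rw [hP.rL1] at hi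
      have h7 := zw_iter (i := i) (j := k) hm0 hs hi hP.rL1.ge (by rw [hP.rL']; omega)
        (ext K r) (zw_drop_le hm0 hP hbb' (ext K r) hcon) n
      have h8 : CB k ^ (k - i) * (4 * SS m (bL m k l)) ≤ CB k ^ k * 4 * SS m (bL m k l) := by
        rw [mul_assoc]
        exact Nat.mul_le_mul_right _ (Nat.pow_le_pow_right (CB_pos k) (Nat.sub_le _ _))
      omega
    · have h6 : (SS m (bL m k l') : ℝ) ≤ (SS m (bL m k l) : ℝ) := by
        exact_mod_cast SS_mono m (by rw [hP.bL_succ]; omega)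
      have h7 : (2 : ℝ) ≤ ((CB k ^ k * 4 : ℕ) : ℝ) := by
        have h8 : 2 ≤ CB k ^ k * 4 := by omega
        exact_mod_cast h8
      gcongr
  exact key

end Pool.Agent.Helper83.T5b
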