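import Pool.Agent.Helper84.T5b.Pair
import Pool.Agent.Helper48.T5b.EvDrop
import Pool.Agent.Helper50.T5b.Dec

/-!
# T5b (MP_12a1af), the leaf: decoding of the static levels, the joint vectors being given
-/

set_option autoImplicit false

namespace Pool.Agent.Helper83.T5b

open Finset Pool.Agent.Helper27.T4 Pool.Agent.Helper37.T5b
open Pool.Agent.Helper5.ET (mask)
open Pool.Agent.Helper30.T5b (pz QF QT RT BP ez NL)
open Pool.Agent.Helper22.HW Pool.Agent.Helper57.T5 Pool.Agent.Helper39.T5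
open Pool.Agent.Helper84.T5b

variable {m k : ℕ}

/-! ## decoding of a pair of static levels -/

/-- decoding constant -/
noncomputable def CB (k : ℕ) : ℕ := (2 * BP k) ^ 3

theorem CB_pos (k : ℕ) : 0 < CB k := by
  have := Pool.Agent.Helper30.T5b.BP_pos k
  unfold CB
  positivity

/-- decoding of two codes given by their residues -/
theorem dec_cast (k u : ℕ) (a : Fin 3 → ℕ) (c c' : (Fin 3 → ℕ) → ℕ) (Y Y' : Finset (Fin 3 → ℕ))
    (h h' : Fin 3 → (Fin 3 → ℕ) → ℕ)
    (hh : ∀ f y y', (∀ g < f, y g = y' g) → h f y = h f y')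
    (hh' : ∀ f y y', (∀ g < f, y g = y' g) → h' f y = h' f y')
    (hY : Adm (pz k u) a Y) (hY' : Adm (pz k u) a Y')
    (hc : ∀ y f, ((c y : ℕ) : ZMod (pz k u f ^ a f)) =
      Lg (pz k u f) (a f) (y f) + ((h f y : ℕ) : ZMod (pz k u f ^ a f)))
    (hc' : ∀ y f, ((c' y : ℕ) : ZMod (pz k u f ^ a f)) =
      Lg (pz k u f) (a f) (y f) + ((h' f y : ℕ) : ZMod (pz k u f ^ a f))) :
    Dec Y Y' c c' (NN (pz k u) a) (CB k) := by
  classical
  intro T
  set S := (Y ×ˢ Y').filter (fun q => (c q.1 + c' q.2) % NN (pz k u) a = T % NN (pz k u) a)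
    with hS
  have key := Pool.Agent.Helper3.T4.card_code_pairs_quot (p := pz k u) (pz_prime k u)
    (Pool.Agent.Helper50.T5b.pz_ne_two k u) a (fun i : Fin 3 => (i : ℕ))
    (fun i y => ((h i y : ℕ) : ZMod (pz k u i ^ a i)))
    (fun i y => ((h' i y : ℕ) : ZMod (pz k u i ^ a i)))
    (fun i x y hxy => by rw [hh i x y (fun g hg => hxy g hg)])
    (fun i x y hxy => by rw [hh' i x y (fun g hg => hxy g hg)])
    (fun i => ((T : ℕ) : ZMod (pz k u i ^ a i))) (fun _ => 0)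
    (S.image (fun t => fun i => (t.1 i, t.2 i))) ?_
  · refine le_trans (card_le_card_of_injOn (fun t => fun i => (t.1 i, t.2 i))
      (t := S.image (fun t => fun i => (t.1 i, t.2 i))) ?_ ?_) (key.trans ?_)
    · intro t ht
      exact mem_coe.2 (mem_image_of_mem _ (mem_coe.1 ht))
    · intro t _ t' _ htt
      refine Prod.ext ?_ ?_
      · funext i
        exact congrArg Prod.fst (congrFun htt i)
      · funext i
        exact congrArg Prod.snd (congrFun htt i)
    · unfold CB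
      refine (Finset.prod_le_pow_card _ _ (2 * BP k) (fun i _ => ?_)).trans ?_
      · exact Nat.mul_le_mul_left 2 ((Nat.sub_le _ _).trans (Pool.Agent.Helper30.T5b.pz_le k _ i))
      · rw [Finset.card_univ, Fintype.card_fin]
  · intro w hw i
    rw [mem_image] at hw
    obtain ⟨t, ht, rfl⟩ := hw
    rw [hS, mem_filter, mem_product] at ht
    obtain ⟨⟨h1, h2⟩, h3⟩ := ht
    obtain ⟨a1, a2, a3⟩ := hY _ h1 i
    obtain ⟨b1, b2, b3⟩ := hY' _ h2 i
    refine ⟨a1, b1, a2, b2, ?_, ?_⟩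
    · have h4 := prod_lt_of_adm (pz_prime k u) hY hY' h1 h2 i
      rw [max_self, min_self, Nat.sub_self, Nat.zero_div, pow_zero, Nat.lt_one_iff] at h4
      exact h4
    · have h4 : c t.1 + c' t.2 ≡ T [MOD pz k u i ^ a i] :=
        Nat.ModEq.of_dvd (pow_dvd_NN (pz k u) a i) h3
      have h5 := (ZMod.natCast_eq_natCast_iff _ _ _).2 h4
      rw [Nat.cast_add, hc, hc'] at h5
      exact h5

/-- decoding of the level `t` of `l` and of the level `t'` of `l'`, the same triple -/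
theorem dec_gen (hm : 0 < m) {l l' t t' : ℕ} (he : sL m k l' - t' = sL m k l - t)
    (ht : t < rL m k l) (ht' : t' < rL m k l') (w : Key → ℕ) (o o' : JF → ℕ) :
    Dec (Ys m k l t) (Ys m k l' t') (cs m k l t w o) (cs m k l' t' w o')
      (QQ m k (sL m k l) t) (CB k) := by
  have hmask : ∀ (f : Fin 3) (y y' : Fin 3 → ℕ), (∀ g < f, y g = y' g) →
      mask (univ.filter (fun g => g < f)) y = mask (univ.filter (fun g => g < f)) y' := by
    intro f y y' h
    funext g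
    unfold mask
    by_cases hg : g ∈ univ.filter (fun g => g < f)
    · rw [if_pos hg, if_pos hg]
      exact h g (mem_filter.1 hg).2
    · rw [if_neg hg, if_neg hg]
  have hY' : Adm (pz k (sL m k l - t)) (zf m k (sL m k l - t)) (Ys m k l' t') := by
    have := Pool.Agent.Helper48.T5b.Ys_adm m k l' t'
    rw [he] at this
    exact this
  refine dec_cast k (sL m k l - t) (zf m k (sL m k l - t)) (cs m k l t w o) (cs m k l' t' w o')
    (Ys m k l t) (Ys m k l' t')
    (fun f y => w (Key.S l t f o (mask (univ.filter (fun g => g < f)) y)))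
    (fun f y => w (Key.S l' t' f o' (mask (univ.filter (fun g => g < f)) y)))
    (fun f y y' h => by rw [hmask f y y' h]) (fun f y y' h => by rw [hmask f y y' h])
    (Pool.Agent.Helper48.T5b.Ys_adm m k l t) hY'
    (fun y f => Pool.Agent.Helper48.T5b.cs_cast hm ht w o y f) (fun y f => ?_)
  have h := Pool.Agent.Helper48.T5b.cs_cast hm ht' w o' y f
  rw [he] at h
  exact h

/-! ## the counting scheme -/

/-- labels decoded by a tower of static levels, few elements with a given label and a given sum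
of the tails -/
theorem leaf_count {A β : Type*} [DecidableEq A] [DecidableEq β] (S : Finset A) (r : ℕ)
    (Y : ℕ → Finset β) (σ : ℕ → β → ℕ) (Q Cd : ℕ → ℕ)
    (hdiv : ∀ t < r, ∀ y ∈ Y t, LL Q t ∣ σ t y)
    (hdec : ∀ t < r, ∀ T, ((Y t).filter (fun y => σ t y ≡ T [MOD Q t])).card ≤ Cd t)
    (lab : A → Fin r → β) (hlab : ∀ q ∈ S, ∀ t : Fin r, lab q t ∈ Y t) (c n : ℕ) (a b : A → ℕ)
    (ha : ∀ q ∈ S, LL Q r ∣ a q) (hb : ∀ q ∈ S, LL Q r ∣ b q)
    (hsum : ∀ q ∈ S, c + ∑ t : Fin r, σ t (lab q t) + (a q + b q) = n) (R : ℕ)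
    (hR : ∀ z N, (S.filter (fun q => lab q = z ∧ a q + b q = N)).card ≤ R) :
    S.card ≤ (∏ t ∈ range r, Cd t) * R := by
  classical
  rcases S.eq_empty_or_nonempty with h0 | ⟨q0, hq0⟩
  · rw [h0]
    simp
  have hdec' := tower_dec Y σ Q Cd r hdiv hdec (∑ t : Fin r, σ t (lab q0 t))
  refine le_trans ?_ (Nat.mul_le_mul_right R hdec')
  rw [mul_comm]
  refine Finset.card_le_mul_card_image_of_maps_to (f := lab) ?_ R ?_
  · intro q hq
    rw [mem_filter, Fintype.mem_piFinset]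
    refine ⟨hlab q hq, ?_⟩
    have h1 : ∀ p ∈ S, c + ∑ t : Fin r, σ t (lab p t) ≡ n [MOD LL Q r] := by
      intro p hp
      have h2 := (Nat.modEq_zero_iff_dvd).2 (dvd_add (ha p hp) (hb p hp))
      have h3 := (Nat.ModEq.refl (n := LL Q r) (c + ∑ t : Fin r, σ t (lab p t))).add h2
      rw [hsum p hp, add_zero] at h3
      exact h3.symm
    exact Nat.ModEq.add_left_cancel' c ((h1 q hq).trans (h1 q0 hq0).symm)
  · intro z _
    rcases (S.filter (fun q => lab q = z)).eq_empty_or_nonempty with h1 | ⟨q1, hq1⟩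
    · rw [h1]
      simp
    · rw [mem_filter] at hq1
      refine le_trans (card_le_card ?_) (hR z (a q1 + b q1))
      intro q hq
      rw [mem_filter] at hq ⊢
      refine ⟨hq.1, hq.2, ?_⟩
      have h2 := hsum q hq.1
      have h3 := hsum q1 hq1.1
      rw [hq.2] at h2
      rw [hq1.2] at h3
      omega

/-! ## vectors as functions -/

/-- the vector extended by `0` -/
def ye {r : ℕ} (y : Fin r → Fin 3 → ℕ) (t : ℕ) : Fin 3 → ℕ := if h : t < r then y ⟨t, h⟩ else 0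

theorem ye_fin {r : ℕ} (y : Fin r → Fin 3 → ℕ) (t : Fin r) : ye y t = y t := by
  unfold ye
  rw [dif_pos t.2]

theorem ye_lt {r : ℕ} (y : Fin r → Fin 3 → ℕ) {t : ℕ} (h : t < r) : ye y t = y ⟨t, h⟩ := by
  unfold ye
  rw [dif_pos h]

theorem ye_ext {r : ℕ} {y y' : Fin r → Fin 3 → ℕ} (h : ∀ t < r, ye y t = ye y' t) : y = y' := by
  funext t
  have h1 := h t t.2
  rwa [ye_fin, ye_fin] at h1

theorem sum_ye {r : ℕ} (F : ℕ → (Fin 3 → ℕ) → ℕ) (y : Fin r → Fin 3 → ℕ) :
    ∑ t : Fin r, F t (y t) = ∑ t ∈ range r, F t (ye y t) := by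
  rw [← Fin.sum_univ_eq_sum_range (fun t => F t (ye y t)) r]
  refine sum_congr rfl (fun t _ => ?_)
  rw [ye_fin]

/-- the hits with given joint vectors -/
noncomputable def HL (m k l l' : ℕ) (w : Key → ℕ) (n : ℕ) (x x' : JF → ℕ) :
    Finset (Par m k l × Par m k l') :=
  (Hts m k l l' w n).filter (fun q => q.1.1.1 = x ∧ q.2.1.1 = x')

/-- the data of a hit -/
theorem mem_HL {l l' : ℕ} {w : Key → ℕ} {n : ℕ} {x x' : JF → ℕ}
    {q : Par m k l × Par m k l'} (hq : q ∈ HL m k l l' w n x x') :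
    (q.1.1.1 = x ∧ q.2.1.1 = x') ∧
    ((∀ t < rL m k l, ye q.1.1.2 t ∈ Ys m k l t) ∧
      ∀ t < rL m k l', ye q.2.1.2 t ∈ Ys m k l' t) ∧
    ((∃ v ∈ Vw m k l w, Un m k l * v = q.1.2) ∧ ∃ v ∈ Vw m k l' w, Un m k l' * v = q.2.2) ∧
    (c0 m k l w x + c0 m k l' w x') +
      (∑ t ∈ range (rL m k l), cs m k l t w (okey m k l t x) (ye q.1.1.2 t) +
        ∑ t ∈ range (rL m k l'), cs m k l' t w (okey m k l' t x') (ye q.2.1.2 t)) +
      (q.1.2 + q.2.2) = n := by
  unfold HL Hts Pm at hq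
  rw [mem_filter, mem_filter, mem_product, mem_product, mem_product, mem_product, mem_product,
    Fintype.mem_piFinset, Fintype.mem_piFinset, mem_image, mem_image] at hq
  obtain ⟨⟨⟨⟨⟨_, h1⟩, h2⟩, ⟨⟨_, h3⟩, h4⟩⟩, h5⟩, h6, h7⟩ := hq
  refine ⟨⟨h6, h7⟩, ⟨fun t ht => ?_, fun t ht => ?_⟩, ⟨h2, h4⟩, ?_⟩
  · rw [ye_lt _ ht]
    exact h1 ⟨t, ht⟩
  · rw [ye_lt _ ht]
    exact h3 ⟨t, ht⟩
  · unfold Pool.Agent.Helper84.T5b.val el at h5
    rw [h6, h7, sum_ye (fun t y => cs m k l t w (okey m k l t x) y),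
      sum_ye (fun t y => cs m k l' t w (okey m k l' t x') y)] at h5
    rw [← h5]
    ring

theorem par_ext {l l' : ℕ} {w : Key → ℕ} {n : ℕ} {x x' : JF → ℕ}
    {q p : Par m k l × Par m k l'} (hq : q ∈ HL m k l l' w n x x')
    (hp : p ∈ HL m k l l' w n x x') (h1 : ∀ t < rL m k l, ye q.1.1.2 t = ye p.1.1.2 t)
    (h2 : ∀ t < rL m k l', ye q.2.1.2 t = ye p.2.1.2 t) (h3 : q.1.2 = p.1.2)
    (h4 : q.2.2 = p.2.2) : q = p := by
  obtain ⟨⟨a1, a2⟩, _⟩ := mem_HL hq
  obtain ⟨⟨b1, b2⟩, _⟩ := mem_HL hp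
  exact Prod.ext (Prod.ext (Prod.ext (a1.trans b1.symm) (ye_ext h1)) h3)
    (Prod.ext (Prod.ext (a2.trans b2.symm) (ye_ext h2)) h4)

end Pool.Agent.Helper83.T5b
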