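import Pool.Agent.Helper83.T5b.DropBot
import Pool.Agent.Helper45.T5b.Nb5V

/-!
# T5b (MP_12a1af): regularity of the lower window across a DROP
-/

set_option autoImplicit false

namespace Pool.Agent.Helper83.T5b

open Finset Pool.Agent.Helper27.T4 Pool.Agent.Helper37.T5b
open Pool.Agent.Helper5.ET (bb era mask)
open Pool.Agent.Helper30.T5b (RT NL BP RT_pos ez pz QT)
open Pool.Agent.Helper84.T5b Pool.Agent.Helper57.T5 Pool.Agent.Helper42.T5.Pr
open Pool.Agent.Helper39.T5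
open Pool.Agent.Helper22.HW (cN)
open Pool.Agent.Helper48.T5b (SplitP DropP mS fR)
open Pool.Agent.Helper57.T5b (AQ AQ_pos AQ_ge)
open Pool.Agent.Helper66.T5 (winU DropU muD drop_cN)
open Pool.Agent.Helper50.T5 (VW lev)
open Pool.Agent.Helper41.T5 (RegOK)
open Pool.Agent.Helper45.T5 (RegSet)

variable {m k : ℕ}

/-! ## constants -/

/-- constant of the regularity of the innermost level -/
noncomputable def cY (k : ℕ) : ℕ := 27200 * BP k ^ 2

/-- regularity of the innermost level -/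
noncomputable def rhoY (m k l : ℕ) : ℕ := cY k * SS m (bL m k l)

/-- regularity of the lower window -/
noncomputable def rhoV (m k l' : ℕ) : ℕ := 128 * SS m (bL m k l')

/-- the windows of the lower state are not regular -/
def NRegD (m k l l' : ℕ) (w : Key → ℕ) : Prop :=
  ¬ RegOK (Ys m k l' k) (fun y => mS m k l' k w 0 y) (QQ m k (sL m k l') k) (rhoY m k l) ∨
    ¬ RegSet (Vw m k l' w) 1 (rhoV m k l') (Real.sqrt (RT m k (bL m k l')))

theorem RegOK.le {β : Type*} {Y : Finset β} {f : β → ℕ} {Q : ℕ} {ρ ρ' : ℝ}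
    (h : RegOK Y f Q ρ) (hρ : ρ ≤ ρ') : RegOK Y f Q ρ' := by
  intro g hg hgQ a A c
  refine (h g hg hgQ a A c).trans (mul_le_mul_of_nonneg_right hρ ?_)
  positivity

theorem sqrt_le_two_pow_lev {R : ℕ} : Real.sqrt R / 2 ≤ ((2 ^ lev R : ℕ) : ℝ) := by
  have h1 : R < 4 ^ (lev R + 1) := Nat.lt_pow_succ_log_self (by norm_num) R
  have h2 : Real.sqrt R ≤ 2 * ((2 ^ lev R : ℕ) : ℝ) := by
    rw [Real.sqrt_le_left (by positivity)]
    have h3 : ((R : ℕ) : ℝ) ≤ ((4 ^ (lev R + 1) : ℕ) : ℝ) := by exact_mod_cast h1.le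
    refine h3.trans (le_of_eq ?_)
    push_cast
    rw [mul_pow, ← pow_mul, mul_comm (lev R) 2, pow_mul, pow_succ]
    norm_num
    ring
  linarith

/-- the random window is regular -/
theorem exists_regV (hm : 2 ≤ m) (k : ℕ) : ∃ l0 : ℕ, ∀ l, l0 ≤ l → ∀ K, keysOf m k l ⊆ K →
    PrLe (Mk m k) K (fun w => ¬ RegSet (Vw m k l w) 1 (rhoV m k l)
      (Real.sqrt (RT m k (bL m k l)))) (Real.exp (-(3 * (SS m (bL m k l) : ℝ)))) := by
  have hm0 : 0 < m := by omega
  obtain ⟨t0, h0⟩ := Pool.Agent.Helper45.T5b.exists_RT_bounds hm k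
  obtain ⟨l0, h1⟩ := Pool.Agent.Helper27.T5b.exists_bL hm0 k t0
  refine ⟨l0, fun l hl K hK => ?_⟩
  obtain ⟨hbb, hb⟩ := h1 l hl
  obtain ⟨hS, hhi, -, -⟩ := h0 (bL m k l) hb
  set N := SS m (bL m k l) with hN
  have hreg := Pool.Agent.Helper75.T5.regV_abs (M := Mk m k) (Mk_pos m k) (fun L b => Key.V l L b)
    (fun L b L' b' h => by
      have h' := Key.V.inj h
      exact ⟨h'.2.1, h'.2.2⟩) (fun _ _ => rfl) (RT m k (bL m k l))
    (16 * RT m k (bL m k l)) K
    (fun v _ hv => hK (Pool.Agent.Helper54.T5b.Vkey_mem hm0 hbb hv)) (63 * N) 1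
  refine PrLe_mono (fun r _ hn hreg2 => hn ?_) ?_ hreg
  · have hR0 : (0 : ℝ) < Real.sqrt (RT m k (bL m k l)) :=
      Real.sqrt_pos.2 (by exact_mod_cast RT_pos m k _)
    intro g hg hgQ a L c
    have h2 := Pool.Agent.Helper75.T5.regSet_num hreg2 le_rfl (Nat.cast_nonneg _)
      (half_pos hR0) sqrt_le_two_pow_lev g hg hgQ a L c
    refine h2.trans ?_
    have hgR : (0 : ℝ) < g := by exact_mod_cast hg
    have h3 : (L : ℝ) / (g * (Real.sqrt (RT m k (bL m k l)) / 2)) =
        2 * (L / (g * Real.sqrt (RT m k (bL m k l)))) := by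
      field_simp
    have h4 : (0 : ℝ) ≤ L / (g * Real.sqrt (RT m k (bL m k l))) := by positivity
    have h5 : ((63 * N + 3 : ℕ) : ℝ) ≤ 64 * N := by
      have : 63 * N + 3 ≤ 64 * N := by omega
      exact_mod_cast this
    rw [h3]
    unfold rhoV
    push_cast
    push_cast at h5
    rw [← hN]
    have h6 : (0 : ℝ) ≤ 64 * N := by positivity
    nlinarith
  · have h1 : (((16 * RT m k (bL m k l) + 1) ^ 4 : ℕ) : ℝ) ≤ Real.exp (60 * (N : ℝ)) := by
      rw [Nat.cast_pow]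
      calc (((16 * RT m k (bL m k l) + 1 : ℕ) : ℝ)) ^ 4 ≤ (Real.exp (15 * (N : ℝ))) ^ 4 :=
            pow_le_pow_left₀ (Nat.cast_nonneg _) hhi 4
        _ = Real.exp (60 * (N : ℝ)) := by
            rw [← Real.exp_nat_mul]
            congr 1
            push_cast
            ring
    calc (((16 * RT m k (bL m k l) + 1) ^ 4 : ℕ) : ℝ) * Real.exp (-((63 * N : ℕ) : ℝ))
        ≤ Real.exp (60 * (N : ℝ)) * Real.exp (-((63 * N : ℕ) : ℝ)) :=
          mul_le_mul_of_nonneg_right h1 (Real.exp_pos _).le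
      _ = Real.exp (-(3 * (N : ℝ))) := by
          rw [← Real.exp_add]
          congr 1
          push_cast
          ring

/-- the innermost level of the lower state is regular -/
theorem exists_regY (hm : 0 < m) (k : ℕ) : ∃ l0 : ℕ, ∀ l l' s : ℕ, l0 ≤ l' →
    DropP m k s l' l → ∀ K, keysOf m k l' ⊆ K →
    PrLe (Mk m k) K (fun w => ¬ RegOK (Ys m k l' k) (fun y => mS m k l' k w 0 y)
      (QQ m k (sL m k l') k) (rhoY m k l)) (Real.exp (-(30 * (SS m (bL m k l) : ℝ)))) := by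
  obtain ⟨t1, h1⟩ := Pool.Agent.Helper45.T5b.exists_balancedB hm k
  obtain ⟨l2', h2'⟩ := Pool.Agent.Helper27.T5b.exists_bL hm k t1
  refine ⟨l2', fun l l' s hl' hP K hK => ?_⟩
  obtain ⟨hbb, hb⟩ := h2' l' hl'
  have hks := hP.ks
  have e1 : sL m k l' - k = bL m k l := by
    rw [hP.s', hP.b1]
  obtain ⟨b0, b1, b2⟩ := h1 (sL m k l' - k) (by rw [e1, hP.bL_succ]; omega)
  have hS1 : 1 ≤ SS m (bL m k l) := SS_pos m _
  have hS1r : (1 : ℝ) ≤ SS m (bL m k l) := by exact_mod_cast hS1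
  have hrl : k < rL m k l' := by rw [hP.rL']; omega
  have hreg := Pool.Agent.Helper41.T5.reg_code (Mk := Mk m k) (pz_prime k (sL m k l' - k))
    (Pool.Agent.Helper45.T5b.pz_ne_two k (sL m k l' - k)) (pz_inj k (sL m k l' - k))
    (Ss m k l' k 0)
    (Pool.Agent.Helper45.T5b.Ss_ok (by rw [hP.s']; omega) (by omega) 0)
    (fun i => T1 (pz k (sL m k l' - k) i) (zf m k (sL m k l' - k) i)) K
    (fun i => Pool.Agent.Helper73.T5.sfam_primes (pz_prime k _ i)
      (Pool.Agent.Helper45.T5b.pz_ne_two k _ i) _ _ (fun x hx => mem_T1.1 hx))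
    (fun i y hy => hK (Pool.Agent.Helper54.T5b.Skey_mem hm hbb hrl
      (fun j => Pool.Agent.Helper54.T5b.Bd_pos m k l') hy i))
    (Ys m k l' k) (Finset.Subset.refl _) 1 le_rfl
    (by rw [one_mul]; exact b0) (by rw [one_mul]; exact b1) (by rw [one_mul]; exact b2)
    (T := 100 * (SS m (bL m k l) : ℝ)) (by linarith)
  have hQ : NN (pz k (sL m k l' - k)) (Ss m k l' k 0).e ≤ (10 ^ 6) ^ SS m (bL m k l) := by
    have e2 : NN (pz k (sL m k l' - k)) (Ss m k l' k 0).e = QT m k (sL m k l' - k) := rfl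
    rw [e2, e1]
    refine (Pool.Agent.Helper30.T5b.QT_le hm k (bL m k l)).trans ?_
    exact Nat.pow_le_pow_right (by norm_num) (Sg_le m (bL m k l))
  refine PrLe_mono (fun r _ hn h2 => hn (RegOK.le h2 ?_))
    (Pool.Agent.Helper45.T5.reg_fail hQ hS1) (Pool.Agent.Helper75.T5.prLe_of_prG hreg)
  have a1 : (pz k (sL m k l' - k) 1 : ℝ) ≤ BP k := by
    exact_mod_cast Pool.Agent.Helper30.T5b.pz_le k (sL m k l' - k) 1
  have a2 : (pz k (sL m k l' - k) 2 : ℝ) ≤ BP k := by
    exact_mod_cast Pool.Agent.Helper30.T5b.pz_le k (sL m k l' - k) 2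
  have a3 : (0 : ℝ) ≤ pz k (sL m k l' - k) 1 := Nat.cast_nonneg _
  have a4 : (0 : ℝ) ≤ pz k (sL m k l' - k) 2 := Nat.cast_nonneg _
  have hP2 : ((pz k (sL m k l' - k) 1 : ℝ) + pz k (sL m k l' - k) 2) ^ 2 ≤
      4 * (BP k : ℝ) ^ 2 := by nlinarith
  unfold rhoY cY
  push_cast
  calc 68 * (100 * (SS m (bL m k l) : ℝ) *
        ((pz k (sL m k l' - k) 1 : ℝ) + pz k (sL m k l' - k) 2) ^ 2 * 1 ^ 2)
      ≤ 68 * (100 * (SS m (bL m k l) : ℝ) * (4 * (BP k : ℝ) ^ 2) * 1 ^ 2) := by gcongr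
    _ = 27200 * (BP k : ℝ) ^ 2 * (SS m (bL m k l) : ℝ) := by ring

/-- the quotient of the innermost front is small -/
theorem exists_fR_sizes (hm : 0 < m) (k : ℕ) : ∃ l0 : ℕ, ∀ l l' s : ℕ, l0 ≤ l' →
    DropP m k s l' l → fR m k l' (k + 1) ≤ AQ m (bL m k l') ∧
    AQ m (bL m k l') ^ 3 ≤ RT m k (bL m k l') := by
  obtain ⟨l1, h1⟩ := Pool.Agent.Helper57.T5b.exists_DJ_le hm k
  obtain ⟨t2, h2⟩ := Pool.Agent.Helper57.T5b.exists_AQ_le hm k
  obtain ⟨l3, h3⟩ := Pool.Agent.Helper27.T5b.exists_bL hm k t2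
  refine ⟨l1 + l3, fun l l' s hl' hP => ?_⟩
  have a2 := h1 l' l' (by omega) le_rfl rfl rfl
  rw [hP.rL', ← fR_eq_DJ hm] at a2
  exact ⟨a2, h2 _ (h3 l' (by omega)).2⟩

/-- **the data of the lower window across a DROP** -/
theorem exists_dropU' (hm : 2 ≤ m) (k : ℕ) : ∃ l0 : ℕ, ∀ l l' s : ℕ, l0 ≤ l' →
    DropP m k s l' l →
    DropU (Mk m k) (keysOf m k l') (Ys m k l' k) (fun w y => mS m k l' k w 0 y)
      (fR m k l' (k + 1)) (QQ m k (sL m k l') k) (Vw m k l') (RT m k (bL m k l'))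
      (16 * RT m k (bL m k l')) 16 (rhoV m k l') (rhoY m k l) (NRegD m k l l') ∧
    PrLe (Mk m k) (keysOf m k l') (NRegD m k l l')
      (Real.exp (-(2 * (SS m (bL m k l') : ℝ)))) := by
  have hm0 : 0 < m := by omega
  obtain ⟨l1, h1⟩ := exists_regV hm k
  obtain ⟨l2, h2⟩ := exists_regY hm0 k
  obtain ⟨l3, h3⟩ := exists_fR_sizes hm0 k
  obtain ⟨l4, h4⟩ := Pool.Agent.Helper27.T5b.exists_bL hm0 k 0
  refine ⟨l1 + l2 + l3 + l4, fun l l' s hl' hP => ⟨?_, ?_⟩⟩
  · obtain ⟨hfA, hA3⟩ := h3 l l' s (by omega) hP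
    have hbb := (h4 l' (by omega)).1
    have hA48' := AQ_ge hm0 (bL m k l')
    have hrl : k < rL m k l' := by rw [hP.rL']; omega
    have hQpos : 0 < QQ m k (sL m k l') k := Pool.Agent.Helper30.T5b.QT_pos _ _ _
    have hS1 : 1 ≤ SS m (bL m k l) := SS_pos m _
    have hBP := Pool.Agent.Helper30.T5b.BP_pos k
    refine
      { hf := Pool.Agent.Helper48.T5b.fR_pos hm0 l' (k + 1)
        hQ := hQpos
        fQ := ?_
        mlt := fun w _ y _ => Pool.Agent.Helper48.T5b.mS_lt m k l' k w 0 y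
        vlt := fun w v hv => (Pool.Agent.Helper57.T5b.mem_Vw_lt hv).2
        dep := ?_
        Yc := ?_
        lo := RT_pos _ _ _
        hH := by norm_num
        hi := by push_cast; linarith
        rY1 := ?_
        rV0 := Nat.cast_nonneg _
        flo := ?_
        reg := ?_ }
    · have e1 := Pool.Agent.Helper48.T5b.fR_mul (k := k) hm0 l' (k + 1)
      have e2 : fR m k l' (k + 1) ∣ Jn m k (sL m k l') (ef m k l' (k + 1)) := by
        show _ ∣ FF m k l' (k + 1)
        rw [← e1]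
        exact dvd_mul_left _ _
      refine Nat.Coprime.coprime_dvd_left e2 ?_
      have e3 : QQ m k (sL m k l') k ∣ LL (QQ m k (sL m k l')) (k + 1) := by
        rw [LL_succ]
        exact dvd_mul_left _ _
      refine Nat.Coprime.coprime_dvd_right e3 ?_
      unfold Jn NN
      refine Nat.Coprime.prod_left (fun i _ => Nat.Coprime.pow_left _ ?_)
      refine (Pool.Agent.Helper44.T5b.coprime_LL_pJ ?_ (by omega) i).symm
      rw [hP.s']
      have := hP.ks
      omega
    · intro w w' hw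
      constructor
      · intro y hy
        unfold Pool.Agent.Helper48.T5b.mS
        have e1 : cs m k l' k w 0 y = cs m k l' k w' 0 y := by
          unfold cs Pool.Agent.Helper22.HW.Side.cd Pool.Agent.Helper22.HW.lc
          congr 1
          funext i
          have h6 := hw _ (Pool.Agent.Helper54.T5b.Skey_mem (k := k) hm0 hbb hrl
              (o := 0) (fun j => Pool.Agent.Helper54.T5b.Bd_pos m k l') hy i)
          unfold Pool.Agent.Helper22.HW.Side.rho
          rw [h6]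
        rw [e1]
      · unfold Vw VW
        refine filter_congr (fun v hv => ?_)
        rw [mem_Ico] at hv
        have h6 := hw _ (Pool.Agent.Helper54.T5b.Vkey_mem (k := k) hm0 hbb hv.2)
        dsimp only
        rw [h6]
    · refine Real.le_sqrt_of_sq_le ?_
      exact_mod_cast Ys_card_sq m k l' k
    · have : 1 ≤ rhoY m k l := by
        unfold rhoY cY
        exact Nat.mul_pos (by positivity) hS1
      exact_mod_cast this
    · refine Real.le_sqrt_of_sq_le ?_
      have : fR m k l' (k + 1) ^ 2 ≤ RT m k (bL m k l') := by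
        calc fR m k l' (k + 1) ^ 2 ≤ AQ m (bL m k l') ^ 2 := Nat.pow_le_pow_left hfA 2
          _ ≤ AQ m (bL m k l') ^ 3 := Nat.pow_le_pow_right (by omega) (by norm_num)
          _ ≤ _ := hA3
      exact_mod_cast this
    · intro w _ hA
      unfold NRegD at hA
      push Not at hA
      exact hA
  · have h5 := h2 l l' s (by omega) hP _ (Subset.refl _)
    have h6 := h1 l' (by omega) _ (Subset.refl _)
    refine PrLe_mono (fun r _ hw => hw) ?_ (PrLe_or h5 h6)
    have h7 : (SS m (bL m k l') : ℝ) ≤ (SS m (bL m k l) : ℝ) := by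
      exact_mod_cast SS_mono m (by rw [hP.bL_succ]; omega)
    have h8 : (1 : ℝ) ≤ SS m (bL m k l') := by exact_mod_cast SS_pos m (bL m k l')
    have h9 : Real.exp (-(30 * (SS m (bL m k l) : ℝ))) ≤
        Real.exp (-(3 * (SS m (bL m k l') : ℝ))) := Real.exp_le_exp.2 (by linarith)
    have h10 : 2 * Real.exp (-(3 * (SS m (bL m k l') : ℝ))) ≤
        Real.exp (-(2 * (SS m (bL m k l') : ℝ))) := by
      have e1 : (2 : ℝ) ≤ Real.exp (SS m (bL m k l') : ℝ) := by
        have := Real.add_one_le_exp (SS m (bL m k l') : ℝ)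
        linarith
      calc 2 * Real.exp (-(3 * (SS m (bL m k l') : ℝ)))
          ≤ Real.exp (SS m (bL m k l') : ℝ) * Real.exp (-(3 * (SS m (bL m k l') : ℝ))) :=
            mul_le_mul_of_nonneg_right e1 (Real.exp_pos _).le
        _ = _ := by
            rw [← Real.exp_add]
            congr 1
            ring
    linarith

theorem exists_dropU (hm : 2 ≤ m) (k : ℕ) : ∃ l0 : ℕ, ∀ l l' s : ℕ, l0 ≤ l' →
    DropP m k s l' l → ez m (bL m k l) l' = ez m (bL m k l) l →
    DropU (Mk m k) (keysOf m k l') (Ys m k l' k) (fun w y => mS m k l' k w 0 y)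
      (fR m k l' (k + 1)) (QQ m k (sL m k l') k) (Vw m k l') (RT m k (bL m k l'))
      (16 * RT m k (bL m k l')) 16 (rhoV m k l') (rhoY m k l) (NRegD m k l l') ∧
    PrLe (Mk m k) (keysOf m k l') (NRegD m k l l')
      (Real.exp (-(2 * (SS m (bL m k l') : ℝ)))) := by
  obtain ⟨l0, h0⟩ := exists_dropU' hm k
  exact ⟨l0, fun l l' s hl' hP _ => h0 l l' s hl' hP⟩

end Pool.Agent.Helper83.T5b
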