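import Pool.Agent.Helper83.T5b.DropInst

/-!
# T5b (MP_12a1af): pairs of states across a DROP all of whose fronts are common
-/

set_option autoImplicit false

namespace Pool.Agent.Helper83.T5b

open Finset Pool.Agent.Helper27.T4 Pool.Agent.Helper37.T5b
open Pool.Agent.Helper5.ET (bb era mask)
open Pool.Agent.Helper30.T5b (RT NL BP RT_pos ez pz QT)
open Pool.Agent.Helper84.T5b Pool.Agent.Helper57.T5 Pool.Agent.Helper42.T5.Pr
open Pool.Agent.Helper48.T5b (SplitP DropP mS fR)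
open Pool.Agent.Helper44.T5b (near_R_late)
open Pool.Agent.Helper57.T5b (BKb BKb_of CK CK_ge exists_SS_bL_le exists_le_SS_bL)

variable {m k : ℕ}

/-- **PairOK from a polynomial bound in terms of the last window** -/
theorem pairOK_of_poly (hm : 2 ≤ m) {P : ℕ → ℕ → Prop}
    {Ct : ℕ → ℕ → (Key → ℕ) → ℕ → Prop} (E : ℕ) {C m' : ℝ} (hC : 0 ≤ C) (hm' : 0 ≤ m') {l0 : ℕ}
    (h : ∀ l l', l0 ≤ l' → l' ≤ l → P l' l →
      ∀ K : Finset Key, keysOf m (m ^ 2) l ⊆ K → keysOf m (m ^ 2) l' ⊆ K →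
      ∃ t, bL m (m ^ 2) l ≤ t + 1 ∧ PrLe (Mk m (m ^ 2)) K (fun w => ∃ c : ℕ, Ct l l' w c ∧
        C * (SS m (bL m (m ^ 2) l) : ℝ) ^ E < (c : ℝ)) (m' * Real.exp (-(SS m t : ℝ)))) :
    PairOK m P Ct E := by
  obtain ⟨l1, h1⟩ := exists_SS_bL_le hm
  obtain ⟨c0, l2, hc0, h2⟩ := exists_le_SS_bL hm (m ^ 2)
  refine ⟨l0 + l1 + l2 + 1, C, c0 / 2, m', hC, half_pos hc0, hm',
    fun l l' hl' hll hP K hK hK' => ?_⟩
  obtain ⟨t, ht, h0⟩ := h l l' (by omega) hll hP K hK hK'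
  have hl0 : (0 : ℝ) ≤ l := Nat.cast_nonneg _
  refine PrLe_mono (fun r _ hw => ?_) ?_ h0
  · obtain ⟨c, hc, hlt⟩ := hw
    refine ⟨c, hc, lt_of_le_of_lt ?_ hlt⟩
    refine mul_le_mul_of_nonneg_left ?_ hC
    have h3 := h1 l (by omega)
    calc (SS m (bL m (m ^ 2) l) : ℝ) ^ E ≤ ((l : ℝ) ^ ((1 : ℝ) / m)) ^ E :=
          pow_le_pow_left₀ (Nat.cast_nonneg _) h3 E
      _ = (l : ℝ) ^ ((E : ℝ) / m) := by
          rw [← Real.rpow_natCast, ← Real.rpow_mul hl0]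
          congr 1
          ring
  · refine mul_le_mul_of_nonneg_left (Real.exp_le_exp.2 (neg_le_neg ?_)) hm'
    have h4 : SS m (bL m (m ^ 2) l) ≤ SS m t ^ 2 :=
      (SS_mono m ht).trans (Pool.Agent.Helper45.T5b.SS_succ_le_sq hm t)
    have h5 : (l : ℝ) ^ c0 ≤ (SS m t : ℝ) ^ 2 := by
      refine (h2 l (by omega)).trans ?_
      exact_mod_cast h4
    have h6 : (l : ℝ) ^ c0 = ((l : ℝ) ^ (c0 / 2)) ^ 2 := by
      rw [← Real.rpow_natCast, ← Real.rpow_mul hl0]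
      congr 1
      push_cast
      ring
    rw [h6] at h5
    exact le_of_sq_le_sq h5 (Nat.cast_nonneg _)

/-- the keys of a state carry its index -/
theorem V_not_mem_keysOf {l l' L b : ℕ} (h : l ≠ l') : Key.V l L b ∉ keysOf m k l' := by
  unfold keysOf
  rw [mem_union, mem_union, mem_image, mem_image, mem_image]
  rintro ((⟨q, _, hq⟩ | ⟨q, _, hq⟩) | ⟨q, _, hq⟩)
  · cases hq
  · cases hq
  · rw [Key.V.injEq] at hq
    exact h hq.1.symm

/-- the constant -/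
noncomputable def CD (k : ℕ) : ℕ :=
  CK k * (512 * cY k * (5 + 3 * 10 ^ 6 * (136 * 128 * cY k)))

theorem CD_ge (k : ℕ) {S S' : ℕ} (hS : S' ≤ S) (hS1 : 1 ≤ S) :
    CK k * ((2 * (128 * S')) * (2 * (cY k * S)) * tD (136 * (128 * S') * (cY k * S)) S) ≤
      CD k * S ^ 5 := by
  unfold CD tD
  have e1 : (5 + 3 * 10 ^ 6 * (136 * (128 * S') * (cY k * S))) * S ≤
      (5 + 3 * 10 ^ 6 * (136 * 128 * cY k)) * S ^ 3 := by
    have e2 : 5 + 3 * 10 ^ 6 * (136 * (128 * S') * (cY k * S)) ≤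
        (5 + 3 * 10 ^ 6 * (136 * 128 * cY k)) * S ^ 2 := by
      have e3 : 1 ≤ S ^ 2 := Nat.one_le_pow _ _ hS1
      calc 5 + 3 * 10 ^ 6 * (136 * (128 * S') * (cY k * S))
          ≤ 5 * S ^ 2 + 3 * 10 ^ 6 * (136 * (128 * S) * (cY k * S)) := by gcongr; omega
        _ = _ := by ring
    calc _ ≤ (5 + 3 * 10 ^ 6 * (136 * 128 * cY k)) * S ^ 2 * S := Nat.mul_le_mul_right _ e2
      _ = _ := by ring
  calc CK k * ((2 * (128 * S')) * (2 * (cY k * S)) *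
        ((5 + 3 * 10 ^ 6 * (136 * (128 * S') * (cY k * S))) * S))
      ≤ CK k * ((2 * (128 * S)) * (2 * (cY k * S)) *
        ((5 + 3 * 10 ^ 6 * (136 * 128 * cY k)) * S ^ 3)) := by gcongr
    _ = _ := by ring

/-- **all fronts common across a DROP**: bound for the representations -/
theorem botD_rp (hm : 2 ≤ m) (k : ℕ) (hk : 1 ≤ k) : ∃ l0 : ℕ, ∀ l l' s : ℕ, l0 ≤ l' →
    DropP m k s l' l → ez m (bL m k l) l' = ez m (bL m k l) l →
    ∀ K : Finset Key, keysOf m k l ⊆ K → keysOf m k l' ⊆ K →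
    PrLe (Mk m k) K (fun w => ∃ n, CD k * SS m (bL m k l) ^ 5 < Rp m k l l' w n)
      (2 * Real.exp (-(SS m (bL m k l') : ℝ))) := by
  classical
  have hm0 : 0 < m := by omega
  obtain ⟨l1, h1⟩ := drop_two_core hm0 k
  obtain ⟨l2, h2⟩ := exists_dropU hm k
  obtain ⟨l3, h3⟩ := near_R_late hm0 k
  obtain ⟨l4, h4⟩ := Pool.Agent.Helper27.T5b.exists_bL hm0 k 0
  refine ⟨l1 + l2 + l3 + l4, fun l l' s hl' hP he K hK hK' => ?_⟩
  have hll := hP.le
  have hbb := (h4 l (by omega)).1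
  have hss : sL m k l' = sL m k l := hP.s'.trans hP.s1.symm
  have hne : l ≠ l' := by
    intro h
    have h6 := hP.bL_succ
    rw [h] at h6
    omega
  obtain ⟨hU, hA⟩ := h2 l l' s (by omega) hP he
  have hB : BKb m k l (K \ keysOf m k l') := by
    intro v hv
    rw [mem_sdiff]
    exact ⟨BKb_of hm0 hbb hK v hv, V_not_mem_keysOf hne⟩
  have hmain := h1 l l' s (by omega) hP he K (keysOf m k l') hK' hB _ _ _ _ hU hA
    (2 * rhoV m k l') (2 * rhoY m k l) (136 * rhoV m k l' * rhoY m k l)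
    (by push_cast; exact le_rfl) (by push_cast; exact le_rfl) (by push_cast; exact le_rfl)
  have hSle : SS m (bL m k l') ≤ SS m (bL m k l) := SS_mono m (by rw [hP.bL_succ]; omega)
  refine PrLe_mono (fun r _ hw => ?_) ?_ hmain
  · obtain ⟨n, hn⟩ := hw
    by_contra hcon
    simp only [not_exists, not_and, not_lt] at hcon
    have hef : ef m k l' k = ef m k l k := by
      unfold ef
      have e1 : sL m k l - k = bL m k l := by
        rw [hP.s1, hP.b1]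
      rw [hss, e1]
      exact he
    set R := (2 * rhoV m k l') * (2 * rhoY m k l) *
      tD (136 * rhoV m k l' * rhoY m k l) (SS m (bL m k l)) with hR
    have h5 := h3 l l' k (by omega) hll hss (by rw [hP.rL']; omega) hk (by rw [hP.rL1])
      hef (ext K r) R n (fun θ hθ γ N Qi hQi κ₂ hκ => hcon θ hθ γ N Qi hQi κ₂ hκ)
    have h6 := CK_ge k (sL m k l) (Nat.le_succ k) R
    have h7 : CK k * R ≤ CD k * SS m (bL m k l) ^ 5 := CD_ge k hSle (SS_pos m _)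
    omega
  · have h7 : (SS m (bL m k l') : ℝ) ≤ (SS m (bL m k l) : ℝ) := by exact_mod_cast hSle
    have h8 : Real.exp (-(SS m (bL m k l) : ℝ)) ≤ Real.exp (-(SS m (bL m k l') : ℝ)) :=
      Real.exp_le_exp.2 (by linarith)
    have h10 : (0 : ℝ) ≤ (SS m (bL m k l') : ℝ) := Nat.cast_nonneg _
    have h9 : Real.exp (-(2 * (SS m (bL m k l') : ℝ))) ≤ Real.exp (-(SS m (bL m k l') : ℝ)) :=
      Real.exp_le_exp.2 (by linarith)
    linarith

/-- **CaseBotD** -/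
theorem blk_botD : Blk CaseBotD RpC := by
  refine ⟨5, 2, fun m hm => ?_⟩
  have hm0 : 0 < m := by omega
  have hk : 0 < m ^ 2 := by positivity
  obtain ⟨l1, h1⟩ := botD_rp hm (m ^ 2) hk
  obtain ⟨l2, h2⟩ := dropP_near hm0 hk
  refine pairOK_of_poly hm 5 (C := ((CD (m ^ 2) : ℕ) : ℝ)) (m' := 2) (Nat.cast_nonneg _)
    (by norm_num) (l0 := l1 + l2) (fun l l' hl' hll hP K hK hK' => ?_)
  obtain ⟨hn, hs, hd, ⟨-, -, he⟩, -⟩ := hP
  obtain ⟨s, hD⟩ := h2 l l' (by omega) hll hn hs hd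
  refine ⟨bL m (m ^ 2) l', by rw [hD.bL_succ], ?_⟩
  refine PrLe_mono (fun r _ hw => ?_) le_rfl (h1 l l' s (by omega) hD he K hK hK')
  obtain ⟨c, ⟨n, rfl⟩, hlt⟩ := hw
  exact ⟨n, by exact_mod_cast hlt⟩

end Pool.Agent.Helper83.T5b
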