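import Pool.Agent.Helper83.T5b.ZbadD
import Pool.Agent.Helper57.T5b.BotStmt
import Pool.Agent.Helper66.T5.BotReg

/-!
# T5b (MP_12a1af): all fronts common across a DROP, the counting form of the last windows
-/

set_option autoImplicit false

namespace Pool.Agent.Helper83.T5b

open Finset Pool.Agent.Helper27.T4 Pool.Agent.Helper37.T5b
open Pool.Agent.Helper5.ET (bb era)
open Pool.Agent.Helper30.T5b (RT NL BP RT_pos ez pz)
open Pool.Agent.Helper84.T5b Pool.Agent.Helper57.T5 Pool.Agent.Helper42.T5.Pr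
open Pool.Agent.Helper22.HW (cN)
open Pool.Agent.Helper48.T5b (SplitP DropP mS fR)
open Pool.Agent.Helper44.T5b (Zw dJ uJ IJ DJ clJ CJ CS NN_add mem_Zw near_R_late)
open Pool.Agent.Helper44.T5 (Theta cln cln_inj)
open Pool.Agent.Helper57.T5b (AQ AQ_pos AQ_ge BKb BKb_of exists_AQ_le exists_DJ_le RT_le_AQ
  class_inj Jn_eq_mul_DJ DJ_pos IJ_sq cN_eq_zero num_nine winD_one CK CK_ge)
open Pool.Agent.Helper66.T5 (winU DropU muD drop_cN)

variable {m k : ℕ}

/-! ## the windows -/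

theorem Zw_upper_drop (hm : 0 < m) {s l l' : ℕ} (h : DropP m k s l' l) (hbb : bb 0 ≤ mL m k l')
    (w : Key → ℕ) : Zw m k l k w = (Vw m k l w).image
      (fun v => Jn m k (sL m k l) l' * LL (QQ m k (sL m k l)) k * (qN m k l' l * v)) := by
  classical
  have hU := Un_drop hm h hbb
  ext u
  rw [mem_Zw, mem_image, h.rL1, h.s1]
  constructor
  · rintro ⟨y, _, v, hv, rfl⟩
    refine ⟨v, hv, ?_⟩
    rw [Ico_self, sum_empty, zero_add, hU]
    ring
  · rintro ⟨v, hv, rfl⟩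
    refine ⟨fun _ _ => 0, fun t h1 h2 => absurd h2 (by omega), v, hv, ?_⟩
    rw [Ico_self, sum_empty, zero_add, hU]
    ring

theorem Zw_lower_drop (hm : 0 < m) {s l l' : ℕ} (h : DropP m k s l' l) (w : Key → ℕ) :
    Zw m k l' k w = (DropP.UD m k l' w).image
      (fun v => Jn m k (sL m k l) l' * LL (QQ m k (sL m k l)) k * v) := by
  classical
  rw [h.s1, ← h.UD_image hm w]
  ext u
  rw [mem_Zw, mem_image, h.rL', Nat.Ico_succ_singleton]
  constructor
  · rintro ⟨y, hy, v, hv, rfl⟩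
    refine ⟨(y k, Un m k l' * v), ?_, ?_⟩
    · rw [mem_product, mem_image]
      exact ⟨hy k le_rfl (by omega), v, hv, rfl⟩
    · rw [sum_singleton]
  · rintro ⟨⟨y, x⟩, hyx, rfl⟩
    rw [mem_product, mem_image] at hyx
    obtain ⟨hy, v, hv, rfl⟩ := hyx
    refine ⟨fun _ => y, fun t h1 h2 => ?_, v, hv, ?_⟩
    · have : t = k := by omega
      rw [this]
      exact hy
    · rw [sum_singleton]

/-! ## sizes -/

theorem fR_eq_DJ (hm : 0 < m) (l' t : ℕ) : fR m k l' t = DJ m k l' l' t := by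
  have h1 := Pool.Agent.Helper48.T5b.fR_mul (k := k) hm l' t
  have h2 : FF m k l' t = Jn m k (sL m k l') l' * DJ m k l' l' t :=
    Jn_eq_mul_DJ (l := l') (l' := l') (by
      unfold ef
      exact (Pool.Agent.Helper30.T5b.lt_ez hm _ l').le)
  rw [h2] at h1
  exact Nat.eq_of_mul_eq_mul_left (Pool.Agent.Helper27.T5b.Jn_pos _ _ _ _) h1

/-- late sizes across a DROP -/
theorem exists_drop_sizes (hm : 0 < m) (k : ℕ) : ∃ l0 : ℕ, ∀ l l' s : ℕ, l0 ≤ l' →
    DropP m k s l' l → ez m (bL m k l) l' = ez m (bL m k l) l →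
    DJ m k l l' k ≤ AQ m (bL m k l) ∧ fR m k l' (k + 1) ≤ AQ m (bL m k l') ∧
    AQ m (bL m k l') ^ 3 ≤ RT m k (bL m k l') ∧
    4 * AQ m (bL m k l) ^ 2 ≤ QQ m k (sL m k l') k := by
  obtain ⟨l1, h1⟩ := exists_DJ_le hm k
  obtain ⟨t2, h2⟩ := exists_AQ_le hm k
  obtain ⟨l3, h3⟩ := Pool.Agent.Helper27.T5b.exists_bL hm k t2
  refine ⟨l1 + l3, fun l l' s hl' hP he => ?_⟩
  have hll := hP.le
  have a1 := h1 l l' (by omega) hll (hP.s'.trans hP.s1.symm) he
  rw [hP.rL1] at a1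
  have a2 := h1 l' l' (by omega) le_rfl rfl rfl
  rw [hP.rL', ← fR_eq_DJ hm] at a2
  have a3 := h2 _ (h3 l' (by omega)).2
  have a4 := h2 _ (h3 l (by omega)).2
  refine ⟨a1, a2, a3, ?_⟩
  have h4 : RT m k (bL m k l) = RT m k (bL m k l') * QQ m k (sL m k l') k := by
    rw [hP.s', hP.QQ_inner, hP.bL_succ, Pool.Agent.Helper30.T5b.RT_succ]
  have h5 := Pool.Agent.Helper30.T5b.RT_le hm k (bL m k l')
  have h6 := SS_succ_ge hm (bL m k l')
  have h7 := SS_ge hm (bL m k l')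
  rw [← hP.bL_succ] at h6
  have h8 : 4 * (10 ^ 6) ^ SS m (bL m k l') ≤ AQ m (bL m k l) := by
    unfold AQ
    calc 4 * (10 ^ 6) ^ SS m (bL m k l') ≤ 10 ^ 6 * (10 ^ 6) ^ SS m (bL m k l') :=
          Nat.mul_le_mul_right _ (by norm_num)
      _ = (10 ^ 6) ^ (SS m (bL m k l') + 1) := by ring
      _ ≤ _ := Nat.pow_le_pow_right (by norm_num) (by
          have h9 : (2 : ℕ) ^ 5 ≤ 2 ^ 250 := Nat.pow_le_pow_right (by norm_num) (by norm_num)
          have h10 : 2 ^ 5 * SS m (bL m k l') ≤ 2 ^ 250 * SS m (bL m k l') :=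
            Nat.mul_le_mul_right _ h9
          omega)
  rw [h4] at a4
  refine Nat.le_of_mul_le_mul_left ?_ (RT_pos m k (bL m k l'))
  calc RT m k (bL m k l') * (4 * AQ m (bL m k l) ^ 2)
      = (4 * RT m k (bL m k l')) * AQ m (bL m k l) ^ 2 := by ring
    _ ≤ AQ m (bL m k l) * AQ m (bL m k l) ^ 2 :=
        Nat.mul_le_mul_right _ ((Nat.mul_le_mul_left 4 h5).trans h8)
    _ = AQ m (bL m k l) ^ 3 := by ring
    _ ≤ _ := a4

/-- the quotient of the joint moduli -/
theorem Jn_qN (hm : 0 < m) {s l l' : ℕ} (h : DropP m k s l' l) (hbb : bb 0 ≤ mL m k l') :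
    Jn m k (sL m k l) l = Jn m k (sL m k l) l' * qN m k l' l := by
  have h1 := Un_drop hm h hbb
  rw [h.Un_upper, h.s1.symm] at h1
  have h2 : 0 < LL (QQ m k (sL m k l)) k := Pool.Agent.Helper27.T5b.LLQ_pos _ _ _ _
  refine Nat.eq_of_mul_eq_mul_right h2 ?_
  rw [h1]
  ring

/-! ## the counting form -/

/-- number of hits across a DROP -/
def tD (μ S : ℕ) : ℕ := (5 + 3 * 10 ^ 6 * μ) * S

/-- **all fronts common across a DROP** -/
theorem drop_two_core (hm : 0 < m) (k : ℕ) : ∃ l0 : ℕ, ∀ l l' s : ℕ, l0 ≤ l' →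
    DropP m k s l' l → ez m (bL m k l) l' = ez m (bL m k l) l →
    ∀ K K0 : Finset Key, K0 ⊆ K → BKb m k l (K \ K0) →
    ∀ (ρV ρY δ : ℝ) (A : (Key → ℕ) → Prop),
    DropU (Mk m k) K0 (Ys m k l' k) (fun w y => mS m k l' k w 0 y) (fR m k l' (k + 1))
      (QQ m k (sL m k l') k) (Vw m k l') (RT m k (bL m k l')) (16 * RT m k (bL m k l')) 16
      ρV ρY A → PrLe (Mk m k) K0 A δ →
    ∀ rV rY μ : ℕ, 2 * ρV ≤ rV → 2 * ρY ≤ rY → 136 * ρV * ρY ≤ μ →
    PrLe (Mk m k) K (fun w => ∃ θ ∈ Theta (pJ k (sL m k l)) (dJ m k l l' k),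
      ∃ γ N Qi : ℕ, LL (QQ m k (sL m k l)) k * Qi ≡ 1 [MOD DJ m k l l' k] ∧
      ∃ κ₂ < 4, rV * rY * tD μ (SS m (bL m k l)) <
        cN (Zw m k l k w) (Zw m k l' k w) (IJ m k l l')
          (Jn m k (sL m k l) l' * LL (QQ m k (sL m k l)) k) (DJ m k l l' k)
          (fun i => Qi * (clJ m k l l' k θ i + γ)) κ₂
          (Jn m k (sL m k l) l' * LL (QQ m k (sL m k l)) k * N))
      (δ + Real.exp (-(SS m (bL m k l) : ℝ))) := by
  classical
  obtain ⟨l1, h1⟩ := exists_drop_sizes hm k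
  obtain ⟨l2, h2⟩ := Pool.Agent.Helper27.T5b.exists_bL hm k 0
  obtain ⟨l4, h4⟩ := Pool.Agent.Helper27.T5b.exists_dbl hm k
  refine ⟨l1 + l2 + l4, fun l l' s hl' hP he K K0 hK0 hB ρV ρY δ A hU hA rV rY μ hrV hrY hμ => ?_⟩
  have hll := hP.le
  have hbb := (h2 l' (by omega)).1
  obtain ⟨hDA, hfA, hA3, hQA⟩ := h1 l l' s (by omega) hP he
  have hRA := RT_le_AQ hm k (bL m k l)
  have hA48 := AQ_ge hm (bL m k l)
  have hA48' := AQ_ge hm (bL m k l')
  have hss : sL m k l' = sL m k l := hP.s'.trans hP.s1.symm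
  have hLL0 : 0 < LL (QQ m k (sL m k l)) k := Pool.Agent.Helper27.T5b.LLQ_pos _ _ _ _
  have hJ0 : 0 < Jn m k (sL m k l) l' := Pool.Agent.Helper27.T5b.Jn_pos _ _ _ _
  have hq := Jn_qN hm hP hbb
  have hq0 := qN_pos m k hll
  have hI := IJ_sq hll hq
  have hlt : l ≤ ef m k l k := by
    unfold ef
    exact (Pool.Agent.Helper30.T5b.lt_ez hm _ l).le
  have hFD : FF m k l k = Jn m k (sL m k l) l' * DJ m k l l' k := Jn_eq_mul_DJ (hll.trans hlt)
  have hqD : qN m k l' l ∣ DJ m k l l' k := by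
    refine Nat.dvd_of_mul_dvd_mul_left hJ0 ?_
    rw [← hq, ← hFD]
    exact Pool.Agent.Helper44.T5b.Jn_dvd m k (sL m k l) hlt
  have hD0 : 0 < DJ m k l l' k := DJ_pos _ _ _ _ _
  have hqDle := Nat.le_of_dvd hD0 hqD
  have hf0 := Pool.Agent.Helper48.T5b.fR_pos (k := k) hm l' (k + 1)
  -- the quotients are comparable
  have hqf : qN m k l' l ∣ fR m k l' (k + 1) ∨ fR m k l' (k + 1) ∣ qN m k l' l := by
    have e1 := Pool.Agent.Helper48.T5b.fR_mul (k := k) hm l' (k + 1)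
    have e2 : FF m k l' (k + 1) = Jn m k (sL m k l) (ef m k l' (k + 1)) := by
      unfold FF
      rw [hss]
    rw [hss, e2] at e1
    rcases Nat.le_total l (ef m k l' (k + 1)) with hc | hc
    · left
      refine Nat.dvd_of_mul_dvd_mul_left hJ0 ?_
      rw [← hq, e1]
      exact Pool.Agent.Helper44.T5b.Jn_dvd m k (sL m k l) hc
    · right
      refine Nat.dvd_of_mul_dvd_mul_left hJ0 ?_
      rw [← hq, e1]
      exact Pool.Agent.Helper44.T5b.Jn_dvd m k (sL m k l) hc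
  set D := DJ m k l l' k with hDdef
  set q := qN m k l' l with hqdef
  set M := Jn m k (sL m k l) l' * LL (QQ m k (sL m k l)) k with hM
  set a := AQ m (bL m k l) with ha
  set a' := AQ m (bL m k l') with ha'
  set S := SS m (bL m k l) with hS
  set Q := QQ m k (sL m k l') k with hQ
  set f := fR m k l' (k + 1) with hf
  have hM0 : 0 < M := Nat.mul_pos hJ0 hLL0
  have hQ0 : 0 < Q := hU.hQ
  have hgq : Nat.gcd D q = q := Nat.gcd_eq_right hqD
  have ha4 : 100 ≤ a := le_trans (by norm_num) hA48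
  have ha4' : 100 ≤ a' := le_trans (by norm_num) hA48'
  have hsqQ : 2 * a ≤ Nat.sqrt Q := by
    rw [Nat.le_sqrt']
    refine le_trans (le_of_eq ?_) hQA
    ring
  have hsqQR : ((2 * a : ℕ) : ℝ) ≤ Real.sqrt Q := by
    refine Real.le_sqrt_of_sq_le ?_
    have : (2 * a) ^ 2 ≤ Q := by
      refine le_trans (le_of_eq ?_) hQA
      ring
    exact_mod_cast this
  have hDQ : D / Q = 0 := by
    refine Nat.div_eq_of_lt ?_
    have h4 : a ^ 2 * 4 ≤ Q := by rw [mul_comm]; exact hQA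
    have h5 : a * 4 ≤ a ^ 2 * 4 := Nat.mul_le_mul_right 4 (Nat.le_self_pow (by norm_num) a)
    omega
  -- coprimality
  have hcop : Nat.Coprime (Nat.gcd D q) Q := by
    rw [hgq]
    have e1 : q ∣ Jn m k (sL m k l) l := by
      rw [hq]
      exact dvd_mul_left _ _
    refine Nat.Coprime.coprime_dvd_left e1 ?_
    have e2 : Q ∣ LL (QQ m k (sL m k l)) (k + 1) := by
      rw [LL_succ, ← hss]
      exact dvd_mul_left _ _
    refine Nat.Coprime.coprime_dvd_right e2 ?_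
    unfold Jn NN
    refine Nat.Coprime.prod_left (fun i _ => Nat.Coprime.pow_left _ ?_)
    refine (Pool.Agent.Helper44.T5b.coprime_LL_pJ ?_ (by omega) i).symm
    rw [hP.s1]
    have := hP.ks
    omega
  -- the contexts
  set J : Finset ((JF → ℕ × ℕ) × (ℕ × ℕ) × (ℕ × ℕ)) :=
    (Theta (pJ k (sL m k l)) (dJ m k l l' k) ×ˢ (((range D ×ˢ range D).filter
      (fun g => LL (QQ m k (sL m k l)) k * g.2 ≡ 1 [MOD D])) ×ˢ (range (a ^ 9) ×ˢ range 4)))
    with hJ
  have hJc : J.card ≤ a ^ 14 := by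
    rw [hJ, card_product, card_product, card_product, card_range, card_range]
    have c1 := Pool.Agent.Helper44.T5.card_Theta_le (pJ k (sL m k l)) (dJ m k l l' k)
    have c2 : ((range D ×ˢ range D).filter
      (fun g => LL (QQ m k (sL m k l)) k * g.2 ≡ 1 [MOD D])).card ≤ D * D := by
      refine (card_filter_le _ _).trans ?_
      rw [card_product, card_range]
    have c3 : NN (pJ k (sL m k l)) (dJ m k l l' k) = D := rfl
    rw [c3] at c1
    have c4 : 4 ≤ a := le_trans (by norm_num) ha4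
    calc _ ≤ (D * D) * ((D * D) * (a ^ 9 * 4)) := by gcongr
      _ ≤ (a * a) * ((a * a) * (a ^ 9 * a)) := by gcongr
      _ = a ^ 14 := by ring
  have hqR : (0 : ℝ) < q := by exact_mod_cast hq0
  have hI2 : ((IJ m k l l' : ℕ) : ℝ) ≤ q := by
    have : IJ m k l l' ≤ IJ m k l l' ^ 2 := Nat.le_self_pow (by norm_num) _
    exact_mod_cast this.trans hI
  have hmu : muD 16 ρV ρY 1 (IJ m k l l') D q D (Nat.gcd D q) ≤ μ := by
    have hDR : (0 : ℝ) < D := by exact_mod_cast hD0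
    have hρ : 0 ≤ ρV * ρY := mul_nonneg hU.rV0 (zero_le_one.trans hU.rY1)
    refine le_trans ?_ hμ
    unfold Pool.Agent.Helper66.T5.muD
    rw [hgq]
    have e1 : (D : ℝ) / ((q : ℝ) * D) = 1 / q := by field_simp
    rw [e1]
    have e2 : ((IJ m k l l' : ℕ) : ℝ) * (1 / (q : ℝ) + 1 / q) ≤ 2 := by
      rw [← two_mul, ← mul_assoc, mul_one_div, div_le_iff₀ hqR]
      linarith
    calc 2 * (2 * (1 + 16) * ρV * ρY) * 1 * (((IJ m k l l' : ℕ) : ℝ) * (1 / (q : ℝ) + 1 / q))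
        = 68 * (ρV * ρY) * (((IJ m k l l' : ℕ) : ℝ) * (1 / (q : ℝ) + 1 / q)) := by ring
      _ ≤ 68 * (ρV * ρY) * 2 := mul_le_mul_of_nonneg_left e2 (by positivity)
      _ = 136 * ρV * ρY := by ring
  have hmain := drop_cN (fun κ => Mk_pos m k κ) hK0
    (winD_one (m := m) (k := k) (l := l) hB)
    (show 1 ≤ RT m k (bL m k l) from RT_pos _ _ _) J
    (fun x i => x.2.1.2 * (clJ m k l l' k x.1 i + x.2.1.1)) (fun x => x.2.2.2)
    (fun x => x.2.2.1) hU hA (m0 := M) (q := q) (D := D) (g := Nat.gcd D q) (rV := rV) (rY := rY)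
    (t := tD μ S) (I := IJ m k l l') (κc := 1) (c1 := 1) (μ := (μ : ℝ)) hM0 hq0 hD0 ?_ rfl
    ?_ ?_ hrV hrY hcop (by rw [hgq]; exact hqf) ?_ ?_ hmu
  · refine PrLe_mono (fun w _ hw => ?_) ?_ hmain
    · obtain ⟨θ, hθ, γ, N, Qi, hQi, κ₂, hκ, hlt2⟩ := hw
      set w' := ext K w with hw'
      have e1 := Zw_upper_drop hm hP hbb w'
      have e2 := Zw_lower_drop hm hP w'
      rw [← hM, ← hqdef] at e1
      rw [← hM] at e2
      have hN : N < a ^ 9 := by
        by_contra hcon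
        push Not at hcon
        have hz : cN (Zw m k l k w') (Zw m k l' k w') (IJ m k l l') M D
            (fun i => Qi * (clJ m k l l' k θ i + γ)) κ₂ (M * N) = 0 := by
          refine cN_eq_zero (B := M * (a * (16 * a ^ 4))) ?_ ?_ hD0 ?_
          · intro u hu
            rw [e1, mem_image] at hu
            obtain ⟨v, hv, rfl⟩ := hu
            have hv2 := (Pool.Agent.Helper57.T5b.mem_Vw_lt hv).2
            exact Nat.mul_le_mul_left _ (Nat.mul_le_mul (hqDle.trans hDA)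
              (hv2.le.trans (Nat.mul_le_mul_left _ hRA)))
          · intro u hu
            rw [e2, mem_image] at hu
            obtain ⟨v, hv, rfl⟩ := hu
            have hv2 := UD_lt hm hP hbb (h4 l' (by omega)).2 w' hv
            refine Nat.mul_le_mul_left _ ?_
            calc v ≤ 17 * a ^ 4 := hv2.le.trans (Nat.mul_le_mul_left _ hRA)
              _ ≤ (a * 16) * a ^ 4 := Nat.mul_le_mul_right _ (by omega)
              _ = a * (16 * a ^ 4) := by ring
          · have h5 : D + κ₂ * D ≤ 4 * a := by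
              have : κ₂ * D ≤ 3 * D := Nat.mul_le_mul_right _ (by omega)
              omega
            have h6 : 2 * (a * (16 * a ^ 4)) + 4 * a < a ^ 9 := num_nine hA48
            calc 2 * (M * (a * (16 * a ^ 4))) + M * (D + κ₂ * D)
                ≤ 2 * (M * (a * (16 * a ^ 4))) + M * (4 * a) :=
                  Nat.add_le_add_left (Nat.mul_le_mul_left _ h5) _
              _ = M * (2 * (a * (16 * a ^ 4)) + 4 * a) := by ring
              _ < M * a ^ 9 := Nat.mul_lt_mul_of_pos_left h6 hM0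
              _ ≤ M * N := Nat.mul_le_mul_left _ hcon
        rw [hz] at hlt2
        omega
      refine ⟨(θ, (γ % D, Qi % D), (N, κ₂)), ?_, ?_⟩
      · rw [hJ, mem_product, mem_product, mem_filter, mem_product, mem_product]
        refine ⟨hθ, ⟨⟨mem_range.2 (Nat.mod_lt _ hD0), mem_range.2 (Nat.mod_lt _ hD0)⟩, ?_⟩,
          mem_range.2 hN, mem_range.2 hκ⟩
        exact ((Nat.mod_modEq Qi D).mul_left _).trans hQi
      · refine lt_of_eq_of_lt (by ring) (lt_of_lt_of_eq hlt2 ?_)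
        rw [e1, e2]
        unfold cN
        refine congrArg Finset.card (filter_congr fun t _ => ?_)
        have h7 : (Qi % D * (clJ m k l l' k θ t.1 + γ % D)) % D =
            (Qi * (clJ m k l l' k θ t.1 + γ)) % D :=
          (Nat.mod_modEq Qi D).mul ((Nat.mod_modEq γ D).add_left _)
        simp only [h7]
    · have hS1 := SS_pos m (bL m k l)
      rw [← hS] at hS1
      have hf5 := fact_tail_mu (5 + 3 * 10 ^ 6 * μ) S (μ0 := (μ : ℝ)) (Nat.cast_nonneg _)
        (Nat.mul_pos (by omega) hS1) (by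
          have e1 : 3 * 10 ^ 6 * μ ≤ (5 + 3 * 10 ^ 6 * μ) * S := by
            calc 3 * 10 ^ 6 * μ ≤ (5 + 3 * 10 ^ 6 * μ) * 1 := by omega
              _ ≤ _ := Nat.mul_le_mul_left _ hS1
          exact_mod_cast e1)
      have he := inv_pow_le_exp S
      set b := ((10 : ℝ) ^ 6) ^ S with hb
      have hb1 : (1 : ℝ) ≤ b := by
        rw [hb]
        exact one_le_pow₀ (by norm_num)
      have hb0 : (0 : ℝ) < b := by linarith
      have hbinv : b⁻¹ ≤ 1 := inv_le_one_of_one_le₀ hb1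
      have hJb : ((J.card : ℕ) : ℝ) ≤ b ^ 4 := by
        have e1 : ((J.card : ℕ) : ℝ) ≤ ((a ^ 14 : ℕ) : ℝ) := by exact_mod_cast hJc
        refine e1.trans ?_
        have e2 : a ^ 14 ≤ ((10 ^ 6) ^ S) ^ 4 := by
          have e3 : a ^ 14 ≤ a ^ 16 := Nat.pow_le_pow_right (by omega) (by norm_num)
          have e4 : a ^ 16 = (a ^ 4) ^ 4 := by ring
          rw [e4, ha, Pool.Agent.Helper57.T5b.AQ_four hm] at e3
          rw [ha]
          exact e3
        have e5 : ((a ^ 14 : ℕ) : ℝ) ≤ ((((10 ^ 6) ^ S) ^ 4 : ℕ) : ℝ) := by exact_mod_cast e2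
        refine e5.trans (le_of_eq ?_)
        rw [hb, Nat.cast_pow, Nat.cast_pow]
        norm_num
      have e6 : b⁻¹ ^ (5 + 3 * 10 ^ 6 * μ) ≤ b⁻¹ ^ 5 :=
        pow_le_pow_of_le_one (by positivity) hbinv (by omega)
      have e7 : ((μ : ℕ) : ℝ) ^ tD μ S / ((tD μ S).factorial : ℝ) ≤ b⁻¹ ^ 5 := hf5.trans e6
      have e8 : ((J.card : ℕ) : ℝ) * (((μ : ℕ) : ℝ) ^ tD μ S / ((tD μ S).factorial : ℝ)) ≤
          b⁻¹ := by
        calc _ ≤ b ^ 4 * b⁻¹ ^ 5 := by gcongr
          _ = b⁻¹ := by field_simp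
      have e9 := e8.trans he
      linarith
  · intro x hx y
    rw [hJ, mem_product, mem_product, mem_filter] at hx
    exact class_inj hll hlt hx.2.1.2 hx.1 _
  · rw [hDQ]
    refine Real.le_sqrt_of_sq_le ?_
    have : (f + 0 + 2) ^ 2 ≤ RT m k (bL m k l') := by
      calc (f + 0 + 2) ^ 2 ≤ (2 * a') ^ 2 := Nat.pow_le_pow_left (by omega) 2
        _ = 4 * a' ^ 2 := by ring
        _ ≤ a' * a' ^ 2 := Nat.mul_le_mul_right _ (by omega)
        _ = a' ^ 3 := by ring
        _ ≤ _ := hA3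
    exact_mod_cast this
  · refine le_trans ?_ hsqQR
    have : D / f + 2 ≤ 2 * a := by
      have := Nat.div_le_self D f
      omega
    exact_mod_cast this
  · rw [hgq]
    have e1 : (q : ℝ) ≤ Real.sqrt Q := by
      refine le_trans ?_ hsqQR
      have : q ≤ 2 * a := by omega
      exact_mod_cast this
    have e2 : (1 : ℝ) ≤ f := by exact_mod_cast hf0
    have e3 : 0 ≤ Real.sqrt Q := Real.sqrt_nonneg _
    exact e1.trans (le_mul_of_one_le_left e3 e2)
  · rw [one_mul]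
    have e1 : RT m k (bL m k l) = RT m k (bL m k l') * Q := by
      rw [hQ, hP.s', hP.QQ_inner, hP.bL_succ, Pool.Agent.Helper30.T5b.RT_succ]
    show Real.sqrt (RT m k (bL m k l') : ℝ) * Real.sqrt (Q : ℝ) ≤
      Real.sqrt ((RT m k (bL m k l) : ℕ) : ℝ)
    rw [e1, Nat.cast_mul, Real.sqrt_mul (Nat.cast_nonneg _)]

end Pool.Agent.Helper83.T5b
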