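import Pool.Agent.Helper83.T5b.LeafCase
import Pool.Agent.Helper57.T5b.VLeaf
import Pool.Agent.Helper57.T5b.Last
import Pool.Agent.Helper66.T5.BotKey

/-!
# T5b (MP_12a1af), the leaf: the innermost windows across a DROP
-/

set_option autoImplicit false

namespace Pool.Agent.Helper83.T5b

open Finset Pool.Agent.Helper27.T4 Pool.Agent.Helper37.T5b
open Pool.Agent.Helper5.ET (mask bb era)
open Pool.Agent.Helper30.T5b (pz QF QT RT BP ez NL)
open Pool.Agent.Helper22.HW Pool.Agent.Helper57.T5 Pool.Agent.Helper39.T5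
open Pool.Agent.Helper84.T5b Pool.Agent.Helper42.T5.Pr
open Pool.Agent.Helper48.T5b (SplitP DropP mS fR)
open Pool.Agent.Helper50.T5 (VW lev)
open Pool.Agent.Helper57.T5b (BKb kb2 winD_one)
open Pool.Agent.Helper66.T5 (winU winU_card_le Earc mem_Earc muE botP_cond)

variable {m k : ℕ}

/-! ## cardinalities -/

theorem T1_card_sq (p a : ℕ) : (T1 p a).card ^ 2 ≤ p ^ a := by
  have h1 : T1 p a ⊆ Icc 1 (Nat.sqrt (p ^ a)) := by
    intro y hy
    rw [mem_T1] at hy
    rw [mem_Icc, Nat.le_sqrt']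
    exact ⟨hy.1.one_le, hy.2.2.le⟩
  have h2 := card_le_card h1
  rw [Nat.card_Icc, Nat.add_sub_cancel] at h2
  exact (Nat.pow_le_pow_left h2 2).trans (Nat.sqrt_le' _)

theorem TT_card_sq {ι : Type*} [Fintype ι] [DecidableEq ι] (p a : ι → ℕ) :
    (TT p a).card ^ 2 ≤ ∏ i, p i ^ a i := by
  unfold TT
  rw [Fintype.card_piFinset, ← Finset.prod_pow]
  exact Finset.prod_le_prod' (fun i _ => T1_card_sq _ _)

theorem Ys_card_sq (m k l t : ℕ) : (Ys m k l t).card ^ 2 ≤ QQ m k (sL m k l) t :=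
  TT_card_sq _ _

theorem card_VW_sq {R : ℕ} (hR : 0 < R) (ρ : ℕ → ℕ → ℕ) :
    (VW R (16 * R) ρ).card ^ 2 ≤ 441 * R := by
  classical
  set L0 := lev R with hL0
  have h0 : 4 ^ L0 ≤ R := Nat.pow_log_le_self 4 hR.ne'
  have h0' : R < 4 ^ (L0 + 1) := Nat.lt_pow_succ_log_self (by norm_num) R
  have h1 : (VW R (16 * R) ρ).card ≤
      ((Ico L0 (L0 + 3)).sigma (fun L => Ico (2 ^ L) (4 * 2 ^ L))).card := by
    refine card_le_card_of_injOn (fun v => (⟨lev v, v / 2 ^ lev v⟩ : (_ : ℕ) × ℕ)) ?_ ?_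
    · intro v hv
      rw [mem_coe, VW, mem_filter, mem_Ico] at hv
      obtain ⟨⟨a1, a2⟩, _⟩ := hv
      rw [mem_coe, mem_sigma, mem_Ico, mem_Ico]
      have hv0 : v ≠ 0 := by omega
      have b1 : 4 ^ lev v ≤ v := Nat.pow_log_le_self 4 hv0
      have b2 : v < 4 ^ (lev v + 1) := Nat.lt_pow_succ_log_self (by norm_num) v
      have b3 : (4 : ℕ) ^ lev v = 2 ^ lev v * 2 ^ lev v := by
        rw [← mul_pow]
        norm_num
      have b4 : 0 < 2 ^ lev v := by positivity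
      refine ⟨⟨Nat.log_mono_right a1, ?_⟩, ?_, ?_⟩
      · show lev v < L0 + 3
        have b5 : (4 : ℕ) ^ lev v < 4 ^ (L0 + 3) := by
          have : (4 : ℕ) ^ (L0 + 3) = 16 * 4 ^ (L0 + 1) := by ring
          omega
        exact (Nat.pow_lt_pow_iff_right (by norm_num)).1 b5
      · show 2 ^ lev v ≤ v / 2 ^ lev v
        rw [Nat.le_div_iff_mul_le b4, ← b3]
        exact b1
      · show v / 2 ^ lev v < 4 * 2 ^ lev v
        rw [Nat.div_lt_iff_lt_mul b4]
        rw [pow_succ, b3] at b2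
        calc v < _ := b2
          _ = _ := by ring
    · intro v hv v' hv' h
      rw [mem_coe, VW, mem_filter] at hv hv'
      have e1 : lev v = lev v' := congrArg Sigma.fst h
      have e2 : v / 2 ^ lev v = v' / 2 ^ lev v' := by
        have := (Sigma.mk.inj_iff.1 h).2
        exact eq_of_heq this
      have e3 := hv.2
      have e4 := hv'.2
      rw [← Nat.div_add_mod v (2 ^ lev v), ← Nat.div_add_mod v' (2 ^ lev v'), e3, e4, e2, e1]
  have h2 : ((Ico L0 (L0 + 3)).sigma (fun L => Ico (2 ^ L) (4 * 2 ^ L))).card = 21 * 2 ^ L0 := by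
    rw [card_sigma, Finset.sum_Ico_succ_top (by omega), Finset.sum_Ico_succ_top (by omega),
      Finset.sum_Ico_succ_top (by omega), Ico_self, sum_empty]
    simp only [Nat.card_Ico]
    have e1 : (2 : ℕ) ^ (L0 + 1) = 2 * 2 ^ L0 := by ring
    have e2 : (2 : ℕ) ^ (L0 + 2) = 4 * 2 ^ L0 := by ring
    rw [e1, e2]
    omega
  rw [h2] at h1
  calc (VW R (16 * R) ρ).card ^ 2 ≤ (21 * 2 ^ L0) ^ 2 := Nat.pow_le_pow_left h1 2
    _ = 441 * 4 ^ L0 := by
        have : (4 : ℕ) ^ L0 = 2 ^ L0 * 2 ^ L0 := by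
          rw [← mul_pow]
          norm_num
        rw [this]
        ring
    _ ≤ 441 * R := Nat.mul_le_mul_left _ h0

theorem Vw_card_sq (m k l : ℕ) (w : Key → ℕ) :
    (Vw m k l w).card ^ 2 ≤ 441 * RT m k (bL m k l) :=
  card_VW_sq (Pool.Agent.Helper30.T5b.RT_pos m k _) _

/-! ## the lower window -/

theorem UD_card_sq {s l l' : ℕ} (h : DropP m k s l' l) (w : Key → ℕ) :
    (DropP.UD m k l' w).card ^ 2 ≤ 441 * RT m k (bL m k l) := by
  have h1 := winU_card_le (Ys m k l' k) (fun y => mS m k l' k w 0 y) (fR m k l' (k + 1))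
    (QQ m k (sL m k l') k) (Vw m k l' w)
  have h2 := Ys_card_sq m k l' k
  have h3 := Vw_card_sq m k l' w
  have h4 : RT m k (bL m k l) = RT m k (bL m k l') * QQ m k (sL m k l') k := by
    rw [h.s', h.QQ_inner, h.bL_succ, Pool.Agent.Helper30.T5b.RT_succ]
  unfold DropP.UD
  calc _ ≤ ((Ys m k l' k).card * (Vw m k l' w).card) ^ 2 := Nat.pow_le_pow_left h1 2
    _ = (Ys m k l' k).card ^ 2 * (Vw m k l' w).card ^ 2 := mul_pow _ _ _
    _ ≤ QQ m k (sL m k l') k * (441 * RT m k (bL m k l')) := Nat.mul_le_mul h2 h3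
    _ = _ := by rw [h4]; ring

theorem UD_lt (hm : 0 < m) {s l l' : ℕ} (h : DropP m k s l' l) (hbb : bb 0 ≤ mL m k l')
    (hd : 2 * (FF m k l' (rL m k l') * LL (QQ m k (sL m k l')) (rL m k l')) ≤ NL m k l')
    (w : Key → ℕ) {u : ℕ} (hu : u ∈ DropP.UD m k l' w) : u < 17 * RT m k (bL m k l) := by
  have h4 : RT m k (bL m k l) = RT m k (bL m k l') * QQ m k (sL m k l') k := by
    rw [h.s', h.QQ_inner, h.bL_succ, Pool.Agent.Helper30.T5b.RT_succ]
  have h5 : 2 * fR m k l' (k + 1) ≤ RT m k (bL m k l') := by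
    have e1 := Pool.Agent.Helper48.T5b.Un_mul_RT (k := k) hm hbb
    have e2 := Pool.Agent.Helper48.T5b.fR_mul (k := k) hm l' (rL m k l')
    have e3 : 0 < Un m k l' := Un_pos m k l'
    rw [← h.rL']
    refine Nat.le_of_mul_le_mul_left ?_ e3
    rw [e1]
    refine le_trans (le_of_eq ?_) hd
    rw [← e2]
    unfold Un
    ring
  unfold DropP.UD Pool.Agent.Helper66.T5.winU at hu
  rw [mem_image] at hu
  obtain ⟨⟨y, v⟩, hx, rfl⟩ := hu
  rw [mem_product] at hx
  have h6 := (Pool.Agent.Helper57.T5b.mem_Vw_lt hx.2).2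
  have h7 := Pool.Agent.Helper48.T5b.mS_lt m k l' k w 0 y
  have h8 := Pool.Agent.Helper30.T5b.RT_pos m k (bL m k l')
  dsimp only at h6 ⊢
  set Q := QQ m k (sL m k l') k with hQ
  set R' := RT m k (bL m k l') with hR'
  have h9 : fR m k l' (k + 1) * mS m k l' k w 0 y < R' * Q := by
    refine Nat.mul_lt_mul_of_le_of_lt (by omega) h7 ?_
    exact h8
  have h10 : Q * v ≤ Q * (16 * R') := Nat.mul_le_mul_left _ h6.le
  rw [h4]
  calc _ < R' * Q + Q * (16 * R') := by omega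
    _ = 17 * (R' * Q) := by ring

theorem cs_congr (l' t : ℕ) {w w' : Key → ℕ} (o : JF → ℕ) (y : Fin 3 → ℕ)
    (h : ∀ f z, w (Key.S l' t f o z) = w' (Key.S l' t f o z)) :
    cs m k l' t w o y = cs m k l' t w' o y := by
  unfold cs Side.cd
  have e : (Ss m k l' t o).rho w = (Ss m k l' t o).rho w' := by
    funext i z
    unfold Side.rho
    have : w ((Ss m k l' t o).key i z) = w' ((Ss m k l' t o).key i z) := h i _
    rw [this]
  rw [e]

theorem Vw_congr (l' : ℕ) {w w' : Key → ℕ}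
    (h : ∀ L b, w (Key.V l' L b) = w' (Key.V l' L b)) : Vw m k l' w = Vw m k l' w' := by
  unfold Vw
  have e : (fun L b => w (Key.V l' L b)) = fun L b => w' (Key.V l' L b) := by
    funext L b
    exact h L b
  rw [e]

theorem UD_congr {l l' : ℕ} (hll : l' ≠ l) {w w' : Key → ℕ}
    (h : ∀ κ : Key, (∀ L b, κ ≠ Key.V l L b) → w κ = w' κ) :
    DropP.UD m k l' w = DropP.UD m k l' w' := by
  unfold DropP.UD
  have e1 : Vw m k l' w = Vw m k l' w' := Vw_congr l' (fun L b => h _ (fun L' b' hc => by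
    rw [Key.V.injEq] at hc
    exact hll hc.1))
  have e2 : (fun y => mS m k l' k w 0 y) = fun y => mS m k l' k w' 0 y := by
    funext y
    unfold Pool.Agent.Helper48.T5b.mS
    rw [cs_congr l' k 0 y (fun f z => h _ (fun L b hc => by cases hc))]
  rw [e1, e2]

/-! ## the window of the upper state against a fixed set -/

theorem TH_card_le_one {V U : Finset ℕ} {q N : ℕ} (hU : ∀ u ∈ U, u < q) :
    (TH V U q N).card ≤ 1 := by
  rw [card_le_one]
  rintro ⟨v, u⟩ h ⟨v', u'⟩ h'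
  rw [TH, mem_filter, mem_product] at h h'
  obtain ⟨⟨_, h1⟩, h2⟩ := h
  obtain ⟨⟨_, h1'⟩, h2'⟩ := h'
  have a1 := hU _ h1
  have a2 := hU _ h1'
  dsimp only at *
  have e1 : v = v' := by
    have b1 : (q * v + u) / q = v := by
      rw [Nat.mul_add_div (by omega), Nat.div_eq_of_lt a1, add_zero]
    have b2 : (q * v' + u') / q = v' := by
      rw [Nat.mul_add_div (by omega), Nat.div_eq_of_lt a2, add_zero]
    rw [← b1, ← b2, h2, h2']
  subst e1
  have e2 : u = u' := by omega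
  rw [e2]

theorem TH_le_hitsE (V U : Finset ℕ) (q N : ℕ) :
    (TH V U q N).card ≤ (hitsE V U (Earc ({0} : Finset ℕ) (fun _ => 0) 1 N 1) q).card := by
  refine card_le_card_of_injOn (fun x => (((0 : ℕ), N), x)) ?_ ?_
  · intro x hx
    rw [mem_coe, TH, mem_filter, mem_product] at hx
    rw [mem_coe, mem_hitsE, mem_Earc]
    refine ⟨⟨⟨⟨mem_singleton_self _, le_rfl, Nat.lt_succ_self _⟩, ?_⟩, hx.1.1, hx.1.2⟩, hx.2⟩
    simp [Nat.mod_one]
  · intro x _ y _ h
    exact (Prod.ext_iff.1 h).2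

theorem muE_le {R : ℕ} (hR : 0 < R) (q : ℕ) :
    muE 1 (Nat.sqrt (441 * R)) 1 q 1 R ≤ 84 := by
  have hR' : (0 : ℝ) < R := by exact_mod_cast hR
  have h0 : 0 < Real.sqrt R := Real.sqrt_pos.2 hR'
  have h1 : ((Nat.sqrt (441 * R) : ℕ) : ℝ) ≤ 21 * Real.sqrt R := by
    have e1 : ((Nat.sqrt (441 * R) : ℕ) : ℝ) ^ 2 ≤ 441 * (R : ℝ) := by
      exact_mod_cast Nat.sqrt_le' (441 * R)
    have e2 : (21 * Real.sqrt R) ^ 2 = 441 * (R : ℝ) := by
      rw [mul_pow, Real.sq_sqrt hR'.le]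
      norm_num
    rw [← e2] at e1
    exact le_of_sq_le_sq e1 (by positivity)
  have h2 : 1 / (q * (1 / Nat.gcd 1 q)) + 1 ≤ 2 := by
    rw [Nat.gcd_one_left, Nat.div_one, mul_one]
    have := Nat.div_le_self 1 q
    omega
  have h3 : ((1 * Nat.sqrt (441 * R) * (1 / (q * (1 / Nat.gcd 1 q)) + 1) : ℕ) : ℝ) ≤
      42 * Real.sqrt R := by
    have e1 : 1 * Nat.sqrt (441 * R) * (1 / (q * (1 / Nat.gcd 1 q)) + 1) ≤
        Nat.sqrt (441 * R) * 2 := by
      rw [one_mul]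
      exact Nat.mul_le_mul_left _ h2
    have e2 : ((1 * Nat.sqrt (441 * R) * (1 / (q * (1 / Nat.gcd 1 q)) + 1) : ℕ) : ℝ) ≤
        ((Nat.sqrt (441 * R) * 2 : ℕ) : ℝ) := by exact_mod_cast e1
    refine e2.trans ?_
    push_cast
    linarith
  unfold Pool.Agent.Helper66.T5.muE
  calc _ ≤ 42 * Real.sqrt R * (2 / Real.sqrt R) := by gcongr
    _ = 84 := by field_simp; norm_num

theorem muE_nonneg (nI R2 ℓ q d lo : ℕ) : 0 ≤ muE nI R2 ℓ q d lo := by
  unfold Pool.Agent.Helper66.T5.muE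
  positivity

theorem inv_pow_le_exp (S : ℕ) : (((10 : ℝ) ^ 6) ^ S)⁻¹ ≤ Real.exp (-(S : ℝ)) := by
  rw [Real.exp_neg]
  refine inv_anti₀ (Real.exp_pos _) ?_
  rw [← Real.exp_one_pow S]
  refine pow_le_pow_left₀ (Real.exp_pos 1).le ?_ S
  have := Real.exp_one_lt_d9
  norm_num
  linarith

/-- `w` on the keys of `K0`, `0` elsewhere -/
def resw (K0 : Finset Key) (w : Key → ℕ) : Key → ℕ := fun κ => if κ ∈ K0 then w κ else 0

/-- **the window of the upper state against a fixed set** -/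
theorem hits_prob (hm : 0 < m) (k : ℕ) : ∃ l0 : ℕ, ∀ l, l0 ≤ l → ∀ K : Finset Key,
    BKb m k l K → ∀ U' : (Key → ℕ) → Finset ℕ,
    (∀ w w' : Key → ℕ, (∀ κ : Key, (∀ L b, κ ≠ Key.V l L b) → w κ = w' κ) → U' w = U' w') →
    (∀ w, (U' w).card ^ 2 ≤ 441 * RT m k (bL m k l)) →
    (∀ w, ∀ u ∈ U' w, u < 17 * RT m k (bL m k l)) → ∀ q : ℕ, 0 < q →
    PrLe (Mk m k) K (fun w => ∃ N, 4 * SS m (bL m k l) < (TH (Vw m k l w) (U' w) q N).card)
      (2 * Real.exp (-(SS m (bL m k l) : ℝ))) := by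
  classical
  obtain ⟨l1, h2⟩ := Pool.Agent.Helper27.T5b.exists_bL hm k (63 * 10 ^ 6)
  refine ⟨l1, fun l hl K hK U' hdep hcard hlt q hq => ?_⟩
  obtain ⟨-, h3⟩ := h2 l hl
  have h8 := Pool.Agent.Helper27.T5b.exists_SS_ge hm (63 * 10 ^ 6) (bL m k l) h3
  have h9 := Pool.Agent.Helper30.T5b.RT_pos m k (bL m k l)
  have hRa := Pool.Agent.Helper30.T5b.RT_le hm k (bL m k l)
  set S := SS m (bL m k l) with hS
  set R := RT m k (bL m k l) with hR
  by_cases hqR : 17 * R < q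
  · refine PrLe_false (fun r _ hw => ?_) (by positivity)
    obtain ⟨N, hN⟩ := hw
    have := TH_card_le_one (V := Vw m k l (ext K r)) (U := U' (ext K r)) (q := q) (N := N)
      (fun u hu => (hlt _ u hu).trans hqR)
    omega
  rw [not_lt] at hqR
  set K0 : Finset Key := K.filter (fun κ => ∀ L b, κ ≠ Key.V l L b) with hK0
  have hK0K : K0 ⊆ K := filter_subset _ _
  have hBK : BKb m k l (K \ K0) := by
    intro v hv
    rw [mem_sdiff, hK0, mem_filter]
    exact ⟨hK v hv, fun hc => hc.2 _ _ rfl⟩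
  have hres : ∀ r ∈ OmK (Mk m k) K, U' (resw K0 (ext K r)) = U' (ext K r) := by
    intro r _
    refine hdep _ _ (fun κ hκ => ?_)
    unfold resw
    by_cases h : κ ∈ K
    · rw [if_pos (by rw [hK0, mem_filter]; exact ⟨h, hκ⟩)]
    · rw [if_neg (fun hc => h (hK0K hc)), ext_not_mem r h]
  have hmain := botP_cond (M := Mk m k) (fun κ => Mk_pos m k κ) hK0K
    (winD_one (m := m) (k := k) (l := l) hBK) (show 1 ≤ R from h9) hq (d := 1) one_pos
    (range (289 * R ^ 2 + 1)) (fun w => U' (resw K0 w))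
    (fun w w' hw => by
      have e : resw K0 w = resw K0 w' := by
        funext κ
        unfold resw
        split_ifs with h
        · exact hw κ h
        · rfl
      show U' (resw K0 w) = U' (resw K0 w')
      rw [e])
    (fun _ => ({0} : Finset ℕ)) (fun _ _ => 0) (fun x => x) 1 1 1 (Nat.sqrt (441 * R)) 1 (4 * S)
    (fun c _ r => (card_filter_le _ _).trans (by simp)) (fun c _ => by simp)
    (A := fun _ => False) (δ := 0) (PrLe_false (fun _ _ => not_false) le_rfl)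
    (fun w _ _ a => by
      rw [card_le_one]
      intro x hx y hy
      rw [mem_filter] at hx hy
      omega)
    (fun w _ _ r => (card_filter_le _ _).trans (by
      rw [Nat.le_sqrt']
      exact hcard _))
  refine PrLe_mono (fun r hr hw => ?_) ?_ hmain
  · obtain ⟨N, hN⟩ := hw
    have hne : (TH (Vw m k l (ext K r)) (U' (ext K r)) q N).Nonempty := by
      rw [← card_pos]
      omega
    obtain ⟨x, hx⟩ := hne
    rw [TH, mem_filter, mem_product] at hx
    obtain ⟨⟨hx1, hx2⟩, hx3⟩ := hx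
    have hx1' := (Pool.Agent.Helper57.T5b.mem_Vw_lt hx1).2
    have hx2' := hlt _ _ hx2
    refine ⟨N, ?_, ?_⟩
    · rw [mem_range, ← hx3]
      have e1 : q * x.1 ≤ 17 * R * (16 * R) := Nat.mul_le_mul hqR hx1'.le
      have e2 : R ≤ R ^ 2 := Nat.le_self_pow (by norm_num) R
      have e3 : 17 * R * (16 * R) = 272 * R ^ 2 := by ring
      rw [e3] at e1
      omega
    · refine lt_of_lt_of_le (lt_of_eq_of_lt (by ring) hN) ?_
      rw [hres r hr]
      exact TH_le_hitsE _ _ _ _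
  · have hf := fact_tail_mu 4 S (μ0 := 84) (by norm_num) (by omega) (by
      have : (252 * 10 ^ 6 : ℝ) ≤ ((4 * S : ℕ) : ℝ) := by
        exact_mod_cast (by omega : 252 * 10 ^ 6 ≤ 4 * S)
      linarith)
    have he := inv_pow_le_exp S
    have hmu := muE_le (R := R) h9 q
    have hmu0 := muE_nonneg 1 (Nat.sqrt (441 * R)) 1 q 1 R
    set a := ((10 : ℝ) ^ 6) ^ S with ha
    have ha1 : (1000 : ℝ) ≤ a := by
      rw [ha]
      calc (1000 : ℝ) ≤ ((10 : ℝ) ^ 6) ^ 1 := by norm_num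
        _ ≤ _ := pow_le_pow_right₀ (by norm_num) (by omega)
    have ha0 : (0 : ℝ) < a := by linarith
    have hh : (((range (289 * R ^ 2 + 1)).card : ℕ) : ℝ) ≤ 290 * a ^ 2 := by
      rw [card_range]
      have h5 : ((R : ℕ) : ℝ) ≤ a := by
        rw [ha]
        exact_mod_cast hRa
      have h6 : (0 : ℝ) ≤ (R : ℝ) := Nat.cast_nonneg _
      have h7 : (R : ℝ) ^ 2 ≤ a ^ 2 := pow_le_pow_left₀ h6 h5 2
      push_cast
      nlinarith
    have hmut : muE 1 (Nat.sqrt (441 * R)) 1 q 1 R ^ (4 * S) / ((4 * S).factorial : ℝ) ≤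
        a⁻¹ ^ 4 := by
      refine le_trans ?_ hf
      have := pow_le_pow_left₀ hmu0 hmu (4 * S)
      gcongr
    have hfin : (0 : ℝ) + (((range (289 * R ^ 2 + 1)).card : ℕ) : ℝ) *
        (muE 1 (Nat.sqrt (441 * R)) 1 q 1 R ^ (4 * S) / ((4 * S).factorial : ℝ)) ≤
        2 * Real.exp (-(S : ℝ)) := by
      calc _ ≤ 0 + (290 * a ^ 2) * (a⁻¹ ^ 4) := by gcongr
        _ = (290 * a⁻¹) * a⁻¹ := by field_simp; ring
        _ ≤ 2 * a⁻¹ := by
            have : 290 * a⁻¹ ≤ 2 := by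
              rw [← div_eq_mul_inv, div_le_iff₀ ha0]
              linarith
            gcongr
        _ ≤ _ := by gcongr
    exact hfin

end Pool.Agent.Helper83.T5b
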